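import Mathlib

set_option autoImplicit false

/-!
Growth lemmas for partial transversals in column-latin matrices.
-/

namespace ColGrow

open Finset

variable {m n : ℕ}

/-- Partial transversal: cells in distinct rows, distinct columns, with distinct symbols. -/
structure PT (A : Fin m → Fin n → ℕ) (T : Finset (Fin m × Fin n)) : Prop where
  row : Set.InjOn (fun p : Fin m × Fin n => p.1) (T : Set (Fin m × Fin n))
  col : Set.InjOn (fun p : Fin m × Fin n => p.2) (T : Set (Fin m × Fin n))
  sym : Set.InjOn (fun p : Fin m × Fin n => A p.1 p.2) (T : Set (Fin m × Fin n))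

/-- rows used -/
def rows (T : Finset (Fin m × Fin n)) : Finset (Fin m) := T.image (fun p => p.1)
/-- columns used -/
def cols (T : Finset (Fin m × Fin n)) : Finset (Fin n) := T.image (fun p => p.2)
/-- symbols used -/
def syms (A : Fin m → Fin n → ℕ) (T : Finset (Fin m × Fin n)) : Finset ℕ :=
  T.image (fun p => A p.1 p.2)

theorem card_rows {A : Fin m → Fin n → ℕ} {T : Finset (Fin m × Fin n)} (h : PT A T) :
    (rows T).card = T.card := card_image_of_injOn h.row

theorem card_cols {A : Fin m → Fin n → ℕ} {T : Finset (Fin m × Fin n)} (h : PT A T) :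
    (cols T).card = T.card := card_image_of_injOn h.col

theorem card_syms {A : Fin m → Fin n → ℕ} {T : Finset (Fin m × Fin n)} (h : PT A T) :
    (syms A T).card = T.card := card_image_of_injOn h.sym

theorem card_le_rows {A : Fin m → Fin n → ℕ} {T : Finset (Fin m × Fin n)} (h : PT A T) :
    T.card ≤ m := by
  rw [← card_rows h]
  simpa using card_le_univ (rows T)

/-- Subsets of partial transversals. -/
theorem PT.mono {A : Fin m → Fin n → ℕ} {T T' : Finset (Fin m × Fin n)} (h : PT A T)
    (hT : T' ⊆ T) : PT A T' :=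
  ⟨h.row.mono (by exact_mod_cast hT), h.col.mono (by exact_mod_cast hT),
    h.sym.mono (by exact_mod_cast hT)⟩

theorem PT.insert {A : Fin m → Fin n → ℕ} {T : Finset (Fin m × Fin n)} (h : PT A T)
    {x : Fin m} {c : Fin n} (hx : x ∉ rows T) (hc : c ∉ cols T) (hs : A x c ∉ syms A T) :
    PT A (Insert.insert (x, c) T) := by
  have hx' : ∀ p ∈ T, p.1 ≠ x := fun p hp he => hx (mem_image.2 ⟨p, hp, he⟩)
  have hc' : ∀ p ∈ T, p.2 ≠ c := fun p hp he => hc (mem_image.2 ⟨p, hp, he⟩)
  have hs' : ∀ p ∈ T, A p.1 p.2 ≠ A x c := fun p hp he => hs (mem_image.2 ⟨p, hp, he⟩)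
  refine ⟨?_, ?_, ?_⟩
  · intro p hp q hq he
    simp only [coe_insert, Set.mem_insert_iff, mem_coe] at hp hq
    rcases hp with rfl | hp <;> rcases hq with rfl | hq
    · rfl
    · exact absurd he.symm (hx' q hq)
    · exact absurd he (hx' p hp)
    · exact h.row hp hq he
  · intro p hp q hq he
    simp only [coe_insert, Set.mem_insert_iff, mem_coe] at hp hq
    rcases hp with rfl | hp <;> rcases hq with rfl | hq
    · rfl
    · exact absurd he.symm (hc' q hq)
    · exact absurd he (hc' p hp)
    · exact h.col hp hq he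
  · intro p hp q hq he
    simp only [coe_insert, Set.mem_insert_iff, mem_coe] at hp hq
    rcases hp with rfl | hp <;> rcases hq with rfl | hq
    · rfl
    · exact absurd he.symm (hs' q hq)
    · exact absurd he (hs' p hp)
    · exact h.sym hp hq he

/-- The invariant of the growth: every row of `B` can be made free, using only the columns of `T`
and of `C`, keeping the symbols and changing only rows of `B`. -/
structure Inv (A : Fin m → Fin n → ℕ) (T : Finset (Fin m × Fin n)) (B : Finset (Fin m))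
    (C : Finset (Fin n)) : Prop where
  free : ∀ x, x ∉ rows T → x ∈ B
  st : ∀ x ∈ B, ∃ T' : Finset (Fin m × Fin n), PT A T' ∧ T'.card = T.card ∧ x ∉ rows T' ∧
    syms A T' ⊆ syms A T ∧ cols T' ⊆ cols T ∪ C ∧ ∀ p : Fin m × Fin n, p.1 ∉ B → (p ∈ T' ↔ p ∈ T)

theorem Inv.base {A : Fin m → Fin n → ℕ} {T : Finset (Fin m × Fin n)} (hT : PT A T) :
    Inv A T (univ \ rows T) ∅ := by
  refine ⟨fun x hx => by simpa using hx, ?_⟩
  intro x hx
  refine ⟨T, hT, rfl, by simpa using hx, Subset.rfl, subset_union_left, fun p _ => Iff.rfl⟩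

/-- One growth step. -/
def nxt (A : Fin m → Fin n → ℕ) (T : Finset (Fin m × Fin n)) (B : Finset (Fin m)) (c : Fin n) :
    Finset (Fin m) :=
  B ∪ (T.filter (fun p => A p.1 p.2 ∈ B.image (fun x => A x c))).image (fun p => p.1)

theorem subset_nxt (A : Fin m → Fin n → ℕ) (T : Finset (Fin m × Fin n)) (B : Finset (Fin m))
    (c : Fin n) : B ⊆ nxt A T B c := subset_union_left

theorem Inv.step {A : Fin m → Fin n → ℕ} {T : Finset (Fin m × Fin n)} {B : Finset (Fin m)}
    {C : Finset (Fin n)} (h : Inv A T B C) {c : Fin n} (hc : c ∉ cols T)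
    (hcC : c ∉ C) : Inv A T (nxt A T B c) (Insert.insert c C) := by
  refine ⟨fun x hx => subset_nxt A T B c (h.free x hx), ?_⟩
  intro y hy
  by_cases hyB : y ∈ B
  · obtain ⟨T', h1, h2, h3, h4, h5, h6⟩ := h.st y hyB
    refine ⟨T', h1, h2, h3, h4, h5.trans ?_, ?_⟩
    · exact union_subset_union_right (subset_insert c C)
    · intro p hp
      exact h6 p (fun hpB => hp (subset_nxt A T B c hpB))
  · have hy' : y ∈ (T.filter (fun p => A p.1 p.2 ∈ B.image (fun x => A x c))).image
        (fun p => p.1) := by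
      rcases mem_union.1 hy with h' | h'
      · exact absurd h' hyB
      · exact h'
    obtain ⟨p, hp, rfl⟩ := mem_image.1 hy'
    obtain ⟨hpT, hpA⟩ := mem_filter.1 hp
    obtain ⟨x, hxB, hxA⟩ := mem_image.1 hpA
    have hxA : A x c = A p.1 p.2 := hxA
    have hyB : p.1 ∉ B := hyB
    obtain ⟨T', h1, h2, h3, h4, h5, h6⟩ := h.st x hxB
    have hpT' : p ∈ T' := (h6 p hyB).2 hpT
    have hcT' : c ∉ cols T' := fun hcT => by
      rcases mem_union.1 (h5 hcT) with h' | h'
      · exact hc h'
      · exact hcC h'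
    have hxp : x ≠ p.1 := fun he => hyB (he ▸ hxB)
    have hE : PT A (T'.erase p) := h1.mono (erase_subset _ _)
    have hx1 : x ∉ rows (T'.erase p) := fun hx => h3 (image_subset_image (erase_subset _ _) hx)
    have hc1 : c ∉ cols (T'.erase p) := fun hx => hcT' (image_subset_image (erase_subset _ _) hx)
    have hs1 : A x c ∉ syms A (T'.erase p) := by
      intro hx
      obtain ⟨q, hq, hqA⟩ := mem_image.1 hx
      have hq' := mem_erase.1 hq
      apply hq'.1
      exact h1.sym hq'.2 hpT' (by simpa [hxA] using hqA)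
    refine ⟨Insert.insert (x, c) (T'.erase p), hE.insert hx1 hc1 hs1, ?_, ?_, ?_, ?_, ?_⟩
    · rw [card_insert_of_notMem, card_erase_of_mem hpT', ← h2]
      · have : 0 < T'.card := card_pos.2 ⟨p, hpT'⟩
        omega
      · intro hmem
        exact hx1 (mem_image.2 ⟨(x, c), hmem, rfl⟩)
    · intro hmem
      obtain ⟨q, hq, hqe⟩ := mem_image.1 hmem
      rcases mem_insert.1 hq with rfl | hq
      · exact hxp hqe
      · have hq' := mem_erase.1 hq
        exact hq'.1 (h1.row hq'.2 hpT' hqe)
    · intro s hs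
      obtain ⟨q, hq, hqe⟩ := mem_image.1 hs
      rcases mem_insert.1 hq with rfl | hq
      · simp only at hqe
        rw [← hqe, hxA]
        exact mem_image.2 ⟨p, hpT, rfl⟩
      · exact h4 (mem_image.2 ⟨q, (mem_erase.1 hq).2, hqe⟩)
    · intro d hd
      obtain ⟨q, hq, hqe⟩ := mem_image.1 hd
      rcases mem_insert.1 hq with rfl | hq
      · simp only at hqe
        rw [← hqe]
        exact mem_union_right _ (mem_insert_self _ _)
      · have := h5 (mem_image.2 ⟨q, (mem_erase.1 hq).2, hqe⟩)
        exact union_subset_union_right (subset_insert c C) this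
    · intro q hq
      have hqB : q.1 ∉ B := fun h' => hq (subset_nxt A T B c h')
      have hqx : q ≠ (x, c) := fun he => hqB (by rw [he]; exact hxB)
      have hqp : q ≠ p := fun he => hq (by
        rw [he]; exact mem_union_right _ hy')
      rw [mem_insert, mem_erase, ← h6 q hqB]
      constructor
      · rintro (h' | h')
        · exact absurd h' hqx
        · exact h'.2
      · intro h'
        exact Or.inr ⟨hqp, h'⟩

/-- Augmentation. -/
theorem Inv.augment {A : Fin m → Fin n → ℕ} {T : Finset (Fin m × Fin n)} {B : Finset (Fin m)}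
    {C : Finset (Fin n)} (h : Inv A T B C) {c : Fin n} (hc : c ∉ cols T)
    (hcC : c ∉ C) {x : Fin m} (hx : x ∈ B) (hs : A x c ∉ syms A T) :
    ∃ T' : Finset (Fin m × Fin n), PT A T' ∧ T'.card = T.card + 1 ∧
      cols T' ⊆ Insert.insert c (cols T ∪ C) := by
  obtain ⟨T', h1, h2, h3, h4, h5, h6⟩ := h.st x hx
  have hcT' : c ∉ cols T' := fun hcT => by
    rcases mem_union.1 (h5 hcT) with h' | h'
    · exact hc h'
    · exact hcC h'
  refine ⟨Insert.insert (x, c) T', h1.insert h3 hcT' (fun h' => hs (h4 h')), ?_, ?_⟩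
  · rw [card_insert_of_notMem, h2]
    intro hmem
    exact h3 (mem_image.2 ⟨(x, c), hmem, rfl⟩)
  · intro d hd
    obtain ⟨q, hq, hqe⟩ := mem_image.1 hd
    rcases mem_insert.1 hq with rfl | hq
    · simp only at hqe
      rw [← hqe]
      exact mem_insert_self _ _
    · exact mem_insert_of_mem (h5 (mem_image.2 ⟨q, hq, hqe⟩))

/-- Symbols of `T` in the rows of `B`. -/
def S (A : Fin m → Fin n → ℕ) (T : Finset (Fin m × Fin n)) (B : Finset (Fin m)) : Finset ℕ :=
  (T.filter (fun p => p.1 ∈ B)).image (fun p => A p.1 p.2)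

/-- Number of rows of `B` whose symbol in column `c` is not a symbol of `T` in the rows of `B`. -/
def hh (A : Fin m → Fin n → ℕ) (T : Finset (Fin m × Fin n)) (B : Finset (Fin m)) (c : Fin n) : ℕ :=
  (B.filter (fun x => A x c ∉ S A T B)).card

theorem S_mono {A : Fin m → Fin n → ℕ} {T : Finset (Fin m × Fin n)} {B B' : Finset (Fin m)}
    (h : B ⊆ B') : S A T B ⊆ S A T B' := by
  apply image_subset_image
  intro p hp
  rw [mem_filter] at hp ⊢
  exact ⟨hp.1, h hp.2⟩

theorem S_subset {A : Fin m → Fin n → ℕ} {T : Finset (Fin m × Fin n)} {B B' : Finset (Fin m)} :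
    S A T B' ⊆ S A T B ∪ S A T (B' \ B) := by
  intro s hs
  obtain ⟨p, hp, rfl⟩ := mem_image.1 hs
  rw [mem_filter] at hp
  by_cases h : p.1 ∈ B
  · exact mem_union_left _ (mem_image.2 ⟨p, mem_filter.2 ⟨hp.1, h⟩, rfl⟩)
  · exact mem_union_right _ (mem_image.2 ⟨p, mem_filter.2 ⟨hp.1, mem_sdiff.2 ⟨hp.2, h⟩⟩, rfl⟩)

theorem S_card_le {A : Fin m → Fin n → ℕ} {T : Finset (Fin m × Fin n)} (hT : PT A T)
    (B : Finset (Fin m)) : (S A T B).card ≤ B.card := by
  have h1 : (S A T B).card = (T.filter (fun p => p.1 ∈ B)).card :=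
    card_image_of_injOn (hT.sym.mono (by intro p hp; exact (mem_filter.1 (mem_coe.1 hp)).1))
  rw [h1]
  apply card_le_card_of_injOn (fun p => p.1)
  · intro p hp
    exact (mem_filter.1 hp).2
  · exact hT.row.mono (by intro p hp; exact (mem_filter.1 (mem_coe.1 hp)).1)

theorem S_card {A : Fin m → Fin n → ℕ} {T : Finset (Fin m × Fin n)} (hT : PT A T)
    {B : Finset (Fin m)} (hB : ∀ x, x ∉ rows T → x ∈ B) :
    (S A T B).card + (m - T.card) = B.card := by
  have h1 : (S A T B).card = (T.filter (fun p => p.1 ∈ B)).card :=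
    card_image_of_injOn (hT.sym.mono (by intro p hp; exact (mem_filter.1 (mem_coe.1 hp)).1))
  have h2 : ((T.filter (fun p => p.1 ∈ B)).image (fun p => p.1)).card =
      (T.filter (fun p => p.1 ∈ B)).card :=
    card_image_of_injOn (hT.row.mono (by intro p hp; exact (mem_filter.1 (mem_coe.1 hp)).1))
  have h3 : (T.filter (fun p => p.1 ∈ B)).image (fun p => p.1) = B ∩ rows T := by
    ext x
    simp only [mem_image, mem_filter, mem_inter, rows]
    constructor
    · rintro ⟨p, ⟨hp, hpB⟩, rfl⟩
      exact ⟨hpB, p, hp, rfl⟩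
    · rintro ⟨hxB, p, hp, rfl⟩
      exact ⟨p, ⟨hp, hxB⟩, rfl⟩
  have h4 : B \ rows T = univ \ rows T := by
    ext x
    simp only [mem_sdiff, mem_univ, true_and]
    exact ⟨fun h => h.2, fun h => ⟨hB x h, h⟩⟩
  have h5 : (univ \ rows T).card = m - T.card := by
    rw [card_sdiff_of_subset (subset_univ _), card_rows hT]
    simp
  have h6 : (B ∩ rows T).card + (B \ rows T).card = B.card := card_inter_add_card_sdiff B (rows T)
  rw [h1, ← h2, h3, ← h5, ← h4, h6]

theorem hh_ge {A : Fin m → Fin n → ℕ} (hA : ∀ c, Function.Injective (fun x => A x c))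
    {T : Finset (Fin m × Fin n)} (hT : PT A T)
    {B : Finset (Fin m)} (hB : ∀ x, x ∉ rows T → x ∈ B) (c : Fin n) :
    m - T.card ≤ hh A T B c := by
  have h1 := S_card hT hB
  have h2 : (B.filter (fun x => A x c ∈ S A T B)).card ≤ (S A T B).card := by
    apply card_le_card_of_injOn (fun x => A x c)
    · intro x hx
      exact (mem_filter.1 hx).2
    · exact (hA c).injOn
  have h3 := card_filter_add_card_filter_not (s := B) (fun x => A x c ∈ S A T B)
  unfold hh
  omega

theorem out_le {A : Fin m → Fin n → ℕ} (hA : ∀ c, Function.Injective (fun x => A x c))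
    {T : Finset (Fin m × Fin n)} (hT : PT A T)
    {B : Finset (Fin m)} (hB : ∀ x, x ∉ rows T → x ∈ B) (c : Fin n) (Y : Finset (Fin m))
    (hY : Disjoint Y B) :
    (Y.filter (fun x => A x c ∈ S A T B)).card + (m - T.card) ≤ hh A T B c := by
  have h1 := S_card hT hB
  have h2 : ((Y ∪ B).filter (fun x => A x c ∈ S A T B)).card ≤ (S A T B).card := by
    apply card_le_card_of_injOn (fun x => A x c)
    · intro x hx
      exact (mem_filter.1 hx).2
    · exact (hA c).injOn
  have h3 := card_filter_add_card_filter_not (s := B) (fun x => A x c ∈ S A T B)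
  have h4 : ((Y ∪ B).filter (fun x => A x c ∈ S A T B)).card =
      (Y.filter (fun x => A x c ∈ S A T B)).card + (B.filter (fun x => A x c ∈ S A T B)).card := by
    rw [filter_union, card_union_of_disjoint]
    exact disjoint_filter_filter hY
  unfold hh
  omega

/-- The growth step adds exactly `hh` rows if there is no augmentation. -/
theorem card_nxt {A : Fin m → Fin n → ℕ} (hA : ∀ c, Function.Injective (fun x => A x c))
    {T : Finset (Fin m × Fin n)} (hT : PT A T) {B : Finset (Fin m)} {c : Fin n}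
    (hNA : ∀ x ∈ B, A x c ∈ syms A T) :
    (nxt A T B c).card = B.card + hh A T B c := by
  set P := T.filter (fun p => A p.1 p.2 ∈ B.image (fun x => A x c) ∧ p.1 ∉ B) with hP
  have h1 : nxt A T B c = B ∪ P.image (fun p => p.1) := by
    ext y
    unfold nxt
    simp only [mem_union, mem_image, mem_filter, hP]
    constructor
    · rintro (h | ⟨p, ⟨hp, hpA⟩, rfl⟩)
      · exact Or.inl h
      · by_cases hpB : p.1 ∈ B
        · exact Or.inl hpB
        · exact Or.inr ⟨p, ⟨hp, hpA, hpB⟩, rfl⟩
    · rintro (h | ⟨p, ⟨hp, hpA, hpB⟩, rfl⟩)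
      · exact Or.inl h
      · exact Or.inr ⟨p, ⟨hp, hpA⟩, rfl⟩
  have h2 : Disjoint B (P.image (fun p => p.1)) := by
    rw [disjoint_right]
    intro y hy
    obtain ⟨p, hp, rfl⟩ := mem_image.1 hy
    exact (mem_filter.1 hp).2.2
  have h3 : (P.image (fun p => p.1)).card = P.card :=
    card_image_of_injOn (hT.row.mono (by intro p hp; exact (mem_filter.1 (mem_coe.1 hp)).1))
  have h4 : (P.image (fun p => A p.1 p.2)).card = P.card :=
    card_image_of_injOn (hT.sym.mono (by intro p hp; exact (mem_filter.1 (mem_coe.1 hp)).1))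
  have h5 : ((B.filter (fun x => A x c ∉ S A T B)).image (fun x => A x c)).card = hh A T B c :=
    card_image_of_injOn (hA c).injOn
  have h6 : (B.filter (fun x => A x c ∉ S A T B)).image (fun x => A x c) =
      P.image (fun p => A p.1 p.2) := by
    ext s
    simp only [mem_image, mem_filter, hP]
    constructor
    · rintro ⟨x, ⟨hxB, hxS⟩, rfl⟩
      obtain ⟨p, hp, hpe⟩ := mem_image.1 (hNA x hxB)
      refine ⟨p, ⟨hp, ⟨x, hxB, hpe.symm⟩, ?_⟩, hpe⟩
      intro hpB
      exact hxS (mem_image.2 ⟨p, mem_filter.2 ⟨hp, hpB⟩, hpe⟩)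
    · rintro ⟨p, ⟨hp, ⟨x, hxB, hxe⟩, hpB⟩, rfl⟩
      refine ⟨x, ⟨hxB, ?_⟩, hxe⟩
      intro hxS
      obtain ⟨q, hq, hqe⟩ := mem_image.1 hxS
      have hq' := mem_filter.1 hq
      have : q = p := hT.sym hq'.1 hp (by simpa [hxe] using hqe)
      exact hpB (this ▸ hq'.2)
  rw [h1, card_union_of_disjoint h2, h3, ← h4, ← h6, h5]

end ColGrow
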