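import Pool.Agent.Lib.ColGrow.Basic

set_option autoImplicit false

namespace ColGrow

open Finset

variable {m n : ℕ}

/-- The two-time inequality. -/
theorem count_main {A : Fin m → Fin n → ℕ} (hA : ∀ c, Function.Injective (fun x => A x c))
    {T : Finset (Fin m × Fin n)} (hT : PT A T) {J B : Finset (Fin m)}
    (hJ : ∀ x, x ∉ rows T → x ∈ J) (Y : Finset (Fin m)) (hY : Y ⊆ B \ J)
    (D : Finset (Fin n)) (P : Fin m → Fin n → Prop) [∀ y c, Decidable (P y c)] :
    ∑ y ∈ Y, (D.filter (fun c => P y c)).card + D.card * (m - T.card) ≤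
      ∑ c ∈ D, (hh A T B c + hh A T J c) +
      ∑ y ∈ Y, (D.filter (fun c => P y c ∧ A y c ∈ S A T (B \ J))).card := by
  have h1 : ∀ y ∈ Y, (D.filter (fun c => P y c)).card =
      (D.filter (fun c => P y c ∧ A y c ∈ S A T (B \ J))).card +
      (D.filter (fun c => P y c ∧ A y c ∉ S A T (B \ J))).card := by
    intro y _
    have := card_filter_add_card_filter_not (s := D.filter (fun c => P y c))
      (fun c => A y c ∈ S A T (B \ J))
    rw [filter_filter, filter_filter] at this
    exact this.symm
  have h2 : ∑ y ∈ Y, (D.filter (fun c => P y c ∧ A y c ∉ S A T (B \ J))).card =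
      ∑ c ∈ D, (Y.filter (fun y => P y c ∧ A y c ∉ S A T (B \ J))).card := by
    simp only [card_filter]
    exact sum_comm
  have hYB : Y ⊆ B := fun y hy => (mem_sdiff.1 (hY hy)).1
  have hYJ : Disjoint Y J := by
    rw [disjoint_left]
    exact fun y hy => (mem_sdiff.1 (hY hy)).2
  have h3 : ∀ c ∈ D, (Y.filter (fun y => P y c ∧ A y c ∉ S A T (B \ J))).card + (m - T.card) ≤
      hh A T B c + hh A T J c := by
    intro c _
    have h4 := out_le hA hT hJ c Y hYJ
    have h5 : (Y.filter (fun y => A y c ∉ S A T B)).card ≤ hh A T B c :=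
      card_le_card (filter_subset_filter _ hYB)
    have h6 : (Y.filter (fun y => P y c ∧ A y c ∉ S A T (B \ J))).card ≤
        (Y.filter (fun y => A y c ∉ S A T B)).card + (Y.filter (fun y => A y c ∈ S A T J)).card := by
      refine le_trans (card_le_card ?_) (card_union_le _ _)
      intro y hy
      rw [mem_filter] at hy
      rw [mem_union, mem_filter, mem_filter]
      by_cases h7 : A y c ∈ S A T B
      · right
        refine ⟨hy.1, ?_⟩
        rcases mem_union.1 (S_subset (B := J) h7) with h8 | h8
        · exact h8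
        · exact absurd h8 hy.2.2
      · left
        exact ⟨hy.1, h7⟩
    omega
  have h7 : ∑ c ∈ D, ((Y.filter (fun y => P y c ∧ A y c ∉ S A T (B \ J))).card + (m - T.card)) ≤
      ∑ c ∈ D, (hh A T B c + hh A T J c) := sum_le_sum h3
  rw [sum_add_distrib, sum_const, smul_eq_mul] at h7
  rw [sum_congr rfl h1, sum_add_distrib, h2]
  omega

/-- The number of columns of `D` in which `y` has a symbol of a small set. -/
theorem count_small {A : Fin m → Fin n → ℕ} (D : Finset (Fin n)) (P : Fin n → Prop)
    [∀ c, Decidable (P c)] (y : Fin m) (Q : Finset ℕ) (q : ℕ)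
    (hq : ∀ s ∈ Q, (D.filter (fun c => P c ∧ A y c = s)).card ≤ q) :
    (D.filter (fun c => P c ∧ A y c ∈ Q)).card ≤ q * Q.card := by
  apply card_le_mul_card_image_of_maps_to (f := fun c => A y c)
  · intro c hc
    exact (mem_filter.1 hc).2.2
  · intro s hs
    refine le_trans (card_le_card ?_) (hq s hs)
    intro c hc
    rw [mem_filter, mem_filter] at hc
    rw [mem_filter]
    exact ⟨hc.1.1, hc.1.2.1, hc.2⟩

/-- A chain of growth steps, each with the best column. -/
theorem chain {A : Fin m → Fin n → ℕ} (hA : ∀ c, Function.Injective (fun x => A x c))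
    {T : Finset (Fin m × Fin n)} (hT : PT A T) (F : Finset (Fin n)) (hF : ∀ c ∈ F, c ∉ cols T)
    (hNA : ∀ B C, Inv A T B C → C ⊆ F → ∀ c ∈ F \ C, ∀ x ∈ B, A x c ∈ syms A T)
    (v : ℕ) (hv : v ≤ F.card) :
    ∃ (Bs : ℕ → Finset (Fin m)) (Cs : ℕ → Finset (Fin n)),
      (∀ i, i ≤ v → Inv A T (Bs i) (Cs i) ∧ Cs i ⊆ F ∧ (Cs i).card = i) ∧
      (∀ i, i < v → Bs i ⊆ Bs (i + 1) ∧ Cs i ⊆ Cs (i + 1) ∧ (Bs i).card < (Bs (i + 1)).card + 1 ∧
        (∀ c ∈ F \ Cs i, (Bs i).card + hh A T (Bs i) c ≤ (Bs (i + 1)).card)) := by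
  induction v with
  | zero =>
    refine ⟨fun _ => univ \ rows T, fun _ => ∅, ?_, ?_⟩
    · intro i hi
      have : i = 0 := by omega
      subst this
      exact ⟨Inv.base hT, empty_subset _, card_empty⟩
    · intro i hi
      omega
  | succ v ih =>
    obtain ⟨Bs, Cs, h1, h2⟩ := ih (by omega)
    obtain ⟨h3, h4, h5⟩ := h1 v le_rfl
    have hne : (F \ Cs v).Nonempty := by
      rw [← card_pos, card_sdiff_of_subset h4]
      omega
    obtain ⟨c, hcF, hcmax⟩ := exists_max_image (F \ Cs v) (fun c => hh A T (Bs v) c) hne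
    have hcF' := mem_sdiff.1 hcF
    have hcard := card_nxt hA hT (B := Bs v) (c := c) (hNA _ _ h3 h4 c hcF)
    refine ⟨Function.update Bs (v + 1) (nxt A T (Bs v) c),
      Function.update Cs (v + 1) (insert c (Cs v)), ?_, ?_⟩
    · intro i hi
      rcases Nat.lt_or_ge i (v + 1) with h | h
      · rw [Function.update_of_ne (by omega), Function.update_of_ne (by omega)]
        exact h1 i (by omega)
      · have : i = v + 1 := by omega
        subst this
        rw [Function.update_self, Function.update_self]
        refine ⟨h3.step (hF c hcF'.1) hcF'.2, ?_, ?_⟩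
        · intro d hd
          rcases mem_insert.1 hd with rfl | hd
          · exact hcF'.1
          · exact h4 hd
        · rw [card_insert_of_notMem hcF'.2, h5]
    · intro i hi
      rcases Nat.lt_or_ge i v with h | h
      · have e1 : Function.update Bs (v + 1) (nxt A T (Bs v) c) i = Bs i :=
          Function.update_of_ne (by omega) _ _
        have e2 : Function.update Cs (v + 1) (insert c (Cs v)) i = Cs i :=
          Function.update_of_ne (by omega) _ _
        have e3 : Function.update Bs (v + 1) (nxt A T (Bs v) c) (i + 1) = Bs (i + 1) :=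
          Function.update_of_ne (by omega) _ _
        have e4 : Function.update Cs (v + 1) (insert c (Cs v)) (i + 1) = Cs (i + 1) :=
          Function.update_of_ne (by omega) _ _
        rw [e1, e2, e3, e4]
        exact h2 i h
      · have : i = v := by omega
        subst this
        have e1 : Function.update Bs (i + 1) (nxt A T (Bs i) c) i = Bs i :=
          Function.update_of_ne (by omega) _ _
        have e2 : Function.update Cs (i + 1) (insert c (Cs i)) i = Cs i :=
          Function.update_of_ne (by omega) _ _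
        rw [e1, e2, Function.update_self, Function.update_self]
        refine ⟨subset_nxt _ _ _ _, subset_insert _ _, ?_, ?_⟩
        · omega
        · intro d hd
          rw [hcard]
          have := hcmax d hd
          omega

/-- Numerical lemma: exponential growth inside a window. -/
theorem window (b w : ℕ → ℕ) (Z N t : ℕ) (h0 : ∀ i, i < N → b (i + 1) = b i + w i)
    (h1 : ∀ i, i < N → 1 ≤ w i)
    (h2 : ∀ j i, j < i → i < N → b i ≤ b j + Z → 3 * b i + 4 ≤ 3 * b j + 4 * (w i + w j))
    (hZ : 2 ^ t * Z < 4 * 3 ^ t) (s : ℕ) (hs : s + 2 * (t + 4) ≤ N) :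
    b s + Z < b (s + 2 * (t + 4)) := by
  by_contra hcon
  push Not at hcon
  have hmono : ∀ d i, i + d ≤ N → b i ≤ b (i + d) := by
    intro d
    induction d with
    | zero => intro i _; simp
    | succ d ih =>
      intro i hi
      have h3 := ih i (by omega)
      have h4 := h0 (i + d) (by omega)
      rw [← add_assoc, h4]
      omega
  have hmono' : ∀ i j, i ≤ j → j ≤ N → b i ≤ b j := by
    intro i j hij hj
    have := hmono (j - i) i (by omega)
    rwa [Nat.add_sub_cancel' hij] at this
  obtain ⟨i0, hi0, hmin⟩ := exists_min_image (Ico s (s + 2 * (t + 4))) w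
    ⟨s, mem_Ico.2 ⟨le_rfl, by omega⟩⟩
  rw [mem_Ico] at hi0
  have hw : ∀ i, s ≤ i → i < s + 2 * (t + 4) → w i0 ≤ w i := fun i h3 h4 =>
    hmin i (mem_Ico.2 ⟨h3, h4⟩)
  have hw1 := h1 i0 (by omega)
  -- all differences in the window are at most `Z`
  have hdiff : ∀ i j, s ≤ j → j ≤ N → i ≤ s + 2 * (t + 4) → b i ≤ b j + Z := by
    intro i j hj hjN hi
    have h3 := hmono' i _ hi hs
    have h4 := hmono' s j hj hjN
    omega
  have hR : ∀ r, i0 + r ≤ s + 2 * (t + 4) → b i0 + r * w i0 ≤ b (i0 + r) := by
    intro r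
    induction r with
    | zero => intro _; simp
    | succ r ih =>
      intro hr
      have h3 := ih (by omega)
      have h4 := h0 (i0 + r) (by omega)
      have h5 := hw (i0 + r) (by omega) (by omega)
      rw [← add_assoc, h4]
      have : (r + 1) * w i0 = r * w i0 + w i0 := by ring
      omega
  have hL : ∀ r, s + r ≤ i0 → b (i0 - r) + r * w i0 ≤ b i0 := by
    intro r
    induction r with
    | zero => intro _; simp
    | succ r ih =>
      intro hr
      have h3 := ih (by omega)
      have h4 := h0 (i0 - (r + 1)) (by omega)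
      have h5 := hw (i0 - (r + 1)) (by omega) (by omega)
      have h6 : i0 - (r + 1) + 1 = i0 - r := by omega
      rw [h6] at h4
      have : (r + 1) * w i0 = r * w i0 + w i0 := by ring
      omega
  have hR2 : ∀ d, i0 + 4 + d ≤ s + 2 * (t + 4) →
      2 ^ d * b i0 + 3 ^ d * (4 * w i0) ≤ 2 ^ d * b (i0 + 4 + d) := by
    intro d
    induction d with
    | zero =>
      intro hd
      have := hR 4 (by omega)
      simpa using this
    | succ d ih =>
      intro hd
      have h3 := ih (by omega)
      have h4 := h0 (i0 + 4 + d) (by omega)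
      have h5 := h2 i0 (i0 + 4 + d) (by omega) (by omega) (hdiff _ _ (by omega) (by omega) (by omega))
      have h6 := hR (4 + d) (by omega)
      rw [← add_assoc] at h6
      have h7 : 4 * w i0 ≤ (4 + d) * w i0 := Nat.mul_le_mul_right _ (by omega)
      have h8 : 3 * b (i0 + 4 + d) ≤ 2 * b (i0 + 4 + d + 1) + b i0 := by omega
      have h9 := Nat.mul_le_mul_left (2 ^ d) h8
      have h10 : i0 + 4 + (d + 1) = i0 + 4 + d + 1 := by ring
      rw [h10, pow_succ, pow_succ]
      nlinarith
  have hL2 : ∀ d, s + 4 + d ≤ i0 →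
      2 ^ d * b (i0 - (4 + d)) + 3 ^ d * (4 * w i0) ≤ 2 ^ d * b i0 := by
    intro d
    induction d with
    | zero =>
      intro hd
      have := hL 4 (by omega)
      simpa using this
    | succ d ih =>
      intro hd
      have h3 := ih (by omega)
      have h4 := h0 (i0 - (4 + (d + 1))) (by omega)
      have h11 : i0 - (4 + (d + 1)) + 1 = i0 - (4 + d) := by omega
      rw [h11] at h4
      have h5 := h2 (i0 - (4 + (d + 1))) i0 (by omega) (by omega)
        (hdiff _ _ (by omega) (by omega) (by omega))
      have h6 := hL (4 + d) (by omega)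
      have h7 : 4 * w i0 ≤ (4 + d) * w i0 := Nat.mul_le_mul_right _ (by omega)
      have h8 : 2 * b (i0 - (4 + (d + 1))) + b i0 ≤ 3 * b (i0 - (4 + d)) := by omega
      have h9 := Nat.mul_le_mul_left (2 ^ d) h8
      rw [pow_succ, pow_succ]
      nlinarith
  have h3 : 4 * 3 ^ t ≤ 3 ^ t * (4 * w i0) := by
    nlinarith [Nat.pos_of_ne_zero (pow_ne_zero t (by norm_num : (3 : ℕ) ≠ 0))]
  rcases Nat.lt_or_ge (s + t + 4) i0 with h | h
  · have h4 := hL2 t (by omega)
    have h5 := hdiff i0 (i0 - (4 + t)) (by omega) (by omega) (by omega)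
    have h6 := Nat.mul_le_mul_left (2 ^ t) h5
    rw [mul_add] at h6
    omega
  · have h4 := hR2 t (by omega)
    have h5 := hdiff (i0 + 4 + t) i0 (by omega) (by omega) (by omega)
    have h6 := Nat.mul_le_mul_left (2 ^ t) h5
    rw [mul_add] at h6
    omega

end ColGrow
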