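import Pool.Agent.Lib.ColGrow.Slow

set_option autoImplicit false

namespace ColGrow

open Finset

variable {m n : ℕ}

/-- A maximum partial transversal avoiding the columns `D0` misses few rows. -/
theorem base_bound {A : Fin m → Fin n → ℕ} (hA : ∀ c, Function.Injective (fun x => A x c))
    (D0 : Finset (Fin n)) :
    ∃ T0, PT A T0 ∧ cols T0 ∩ D0 = ∅ ∧ (m - T0.card) * (n - D0.card - m) ≤ m := by
  classical
  obtain ⟨T, hT', hmax⟩ := exists_max_image
    (univ.filter (fun T : Finset (Fin m × Fin n) => PT A T ∧ cols T ∩ D0 = ∅))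
    (fun T => T.card) ⟨∅, mem_filter.2 ⟨mem_univ _, ⟨by simp, by simp, by simp⟩, by simp [cols]⟩⟩
  obtain ⟨hT, hTD⟩ := (mem_filter.1 hT').2
  refine ⟨T, hT, hTD, ?_⟩
  have hTm := card_le_rows hT
  set F := (univ \ cols T) \ D0 with hF
  have hNA : ∀ B C, Inv A T B C → C ⊆ F → ∀ c ∈ F \ C, ∀ x ∈ B, A x c ∈ syms A T := by
    intro B C hI hC c hc x hx
    by_contra hs
    rw [hF, mem_sdiff, mem_sdiff, mem_sdiff] at hc
    obtain ⟨T', h1, h2, h3⟩ := hI.augment hc.1.1.2 hc.2 hx hs
    have h4 : cols T' ∩ D0 = ∅ := by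
      rw [← not_nonempty_iff_eq_empty]
      rintro ⟨d, hd⟩
      rw [mem_inter] at hd
      rcases mem_insert.1 (h3 hd.1) with rfl | h5
      · exact hc.1.2 hd.2
      · rcases mem_union.1 h5 with h6 | h6
        · have : d ∈ cols T ∩ D0 := mem_inter.2 ⟨h6, hd.2⟩
          rw [hTD] at this
          simp at this
        · exact (mem_sdiff.1 (hC h6)).2 hd.2
    have := hmax T' (mem_filter.2 ⟨mem_univ _, h1, h4⟩)
    omega
  obtain ⟨Bs, Cs, h2, h3⟩ := chain hA hT F
    (fun c hc => (mem_sdiff.1 (mem_sdiff.1 hc).1).2) hNA F.card le_rfl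
  have h4 : ∀ i, i ≤ F.card → (m - T.card) * i ≤ (Bs i).card := by
    intro i
    induction i with
    | zero => intro _; simp
    | succ i ih =>
      intro hi
      have h5 := ih (by omega)
      obtain ⟨h6, h7, h8⟩ := h2 i (by omega)
      obtain ⟨_, _, _, h9⟩ := h3 i (by omega)
      have hne : (F \ Cs i).Nonempty := by
        rw [← card_pos, card_sdiff_of_subset h7]
        omega
      obtain ⟨c, hc⟩ := hne
      have h10 := h9 c hc
      have h11 := hh_ge hA hT h6.free c
      have h12 : (m - T.card) * (i + 1) = (m - T.card) * i + (m - T.card) := by ring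
      omega
  have h5 := h4 F.card le_rfl
  have h6 : (Bs F.card).card ≤ m := by simpa using card_le_univ (Bs F.card)
  have h7 : n - D0.card - m ≤ F.card := by
    have h8 : (univ \ cols T).card = n - T.card := card_free hT
    have h9 : (univ \ cols T).card - D0.card ≤ F.card := le_card_sdiff D0 (univ \ cols T)
    omega
  calc (m - T.card) * (n - D0.card - m) ≤ (m - T.card) * F.card := Nat.mul_le_mul_left _ h7
    _ ≤ m := h5.trans h6

/-- The deterministic core of the theorem on light rows. -/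
theorem main_det {A : Fin m → Fin n → ℕ} (hA : ∀ c, Function.Injective (fun x => A x c))
    (D0 : Finset (Fin n)) (d : ℕ) (hd : D0.card = d) (W Ω : ℕ) (hW : m < (Ω + 1) * (W + 1))
    (k : ℕ) (q l l0 K0 a G g : ℕ) (Hb : Finset (Fin m))
    (hgood : ∀ y, y ∉ Hb → l0 ≤ (D0.filter (fun c => LightCell A q y c)).card)
    (hK0 : m < (K0 + 1) * (n - d - m))
    (hl : l + (W + 1) * K0 + W ≤ l0)
    (hG : d * (2 * Ω) + (G + 1) * (q * a) < (G + 1) * l) (hGg : G ≤ k * g)
    (τ : ℕ) (hτ : τ * g + d + m ≤ n + k)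
    (hfin : a * Hb.card + m * (k * g - G) < τ * (a * (k * g - G))) :
    ∃ T, PT A T ∧ m + 1 ≤ T.card + k := by
  classical
  obtain ⟨T0, hT0, hT0D, hT0b⟩ := base_bound hA D0
  rw [hd] at hT0b
  have hk0 : m - T0.card ≤ K0 := by
    by_contra hcon
    push Not at hcon
    have := Nat.mul_le_mul_right (n - d - m) (show K0 + 1 ≤ m - T0.card from hcon)
    omega
  have hT0m := card_le_rows hT0
  obtain ⟨T, hT', hmax⟩ := exists_max_image
    (univ.filter (fun T : Finset (Fin m × Fin n) => PT A T ∧ T0.card ≤ T.card ∧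
      (cols T ∩ D0).card ≤ (W + 1) * (T.card - T0.card)))
    (fun T => T.card) ⟨T0, mem_filter.2 ⟨mem_univ _, hT0, le_rfl, by simp [hT0D]⟩⟩
  obtain ⟨hT, hTT0, hTD⟩ := (mem_filter.1 hT').2
  refine ⟨T, hT, ?_⟩
  by_contra hcon
  push Not at hcon
  have hTm := card_le_rows hT
  have hNA : ∀ B C, Inv A T B C → C ⊆ univ \ cols T → (C ∩ D0).card ≤ W →
      ∀ c ∈ (univ \ cols T) \ C, ∀ x ∈ B, A x c ∈ syms A T := by
    intro B C hI hC hCW c hc x hx
    by_contra hs
    rw [mem_sdiff, mem_sdiff] at hc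
    obtain ⟨T', h1, h2, h3⟩ := hI.augment hc.1.2 hc.2 hx hs
    have h4 : (cols T' ∩ D0).card ≤ (W + 1) * (T'.card - T0.card) := by
      have h5 : cols T' ∩ D0 ⊆ insert c ((cols T ∩ D0) ∪ (C ∩ D0)) := by
        intro e he
        rw [mem_inter] at he
        rcases mem_insert.1 (h3 he.1) with rfl | h6
        · exact mem_insert_self _ _
        · rcases mem_union.1 h6 with h7 | h7
          · exact mem_insert_of_mem (mem_union_left _ (mem_inter.2 ⟨h7, he.2⟩))
          · exact mem_insert_of_mem (mem_union_right _ (mem_inter.2 ⟨h7, he.2⟩))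
      have h6 := (card_le_card h5).trans (card_insert_le _ _)
      have h7 := card_union_le (cols T ∩ D0) (C ∩ D0)
      have h8 : T'.card - T0.card = (T.card - T0.card) + 1 := by omega
      have h9 : (W + 1) * ((T.card - T0.card) + 1) = (W + 1) * (T.card - T0.card) + (W + 1) := by
        ring
      rw [h8, h9]
      omega
    have := hmax T' (mem_filter.2 ⟨mem_univ _, h1, by omega, h4⟩)
    omega
  have hr : (cols T ∩ D0).card ≤ (W + 1) * K0 :=
    hTD.trans (Nat.mul_le_mul_left _ (by omega))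
  have hFcard : τ * g ≤ ((univ \ cols T) \ D0).card := by
    have h8 : (univ \ cols T).card = n - T.card := card_free hT
    have h9 := le_card_sdiff D0 (univ \ cols T)
    omega
  have := blocks hA hT (univ \ cols T) D0 rfl W Ω hW hNA k (by omega) q l l0 ((W + 1) * K0) a G g d
    Hb hgood hr hl hd hG hGg τ hFcard
  omega

end ColGrow
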