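import Pool.Agent.Lib.ColGrow.Count

set_option autoImplicit false

namespace ColGrow

open Finset

variable {m n : ℕ}

/-- A partial transversal of maximum size satisfies the no-augmentation hypothesis. -/
theorem na_of_max {A : Fin m → Fin n → ℕ} {T : Finset (Fin m × Fin n)}
    (hmax : ∀ T', PT A T' → T'.card ≤ T.card) :
    ∀ B C, Inv A T B C → C ⊆ univ \ cols T → ∀ c ∈ (univ \ cols T) \ C, ∀ x ∈ B,
      A x c ∈ syms A T := by
  intro B C hI hC c hc x hx
  by_contra hs
  rw [mem_sdiff, mem_sdiff] at hc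
  obtain ⟨T', h1, h2, _⟩ := hI.augment hc.1.2 hc.2 hx hs
  have := hmax T' h1
  omega

theorem exists_max (A : Fin m → Fin n → ℕ) :
    ∃ T, PT A T ∧ ∀ T', PT A T' → T'.card ≤ T.card := by
  classical
  obtain ⟨T, hT, hmax⟩ := exists_max_image (univ.filter (fun T : Finset (Fin m × Fin n) => PT A T))
    (fun T => T.card) ⟨∅, mem_filter.2 ⟨mem_univ _, ⟨by simp, by simp, by simp⟩⟩⟩
  exact ⟨T, (mem_filter.1 hT).2, fun T' hT' => hmax T' (mem_filter.2 ⟨mem_univ _, hT'⟩)⟩

theorem card_free {A : Fin m → Fin n → ℕ} {T : Finset (Fin m × Fin n)} (hT : PT A T) :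
    (univ \ cols T).card = n - T.card := by
  rw [card_sdiff_of_subset (subset_univ _), card_cols hT]
  simp

/-- Monotonicity along a chain. -/
theorem chain_mono {α : Type*} (Bs : ℕ → Finset α) (v : ℕ) (h : ∀ i, i < v → Bs i ⊆ Bs (i + 1)) :
    ∀ j i, j ≤ i → i ≤ v → Bs j ⊆ Bs i := by
  intro j i hji
  induction i with
  | zero =>
    intro _
    have : j = 0 := by omega
    rw [this]
  | succ i ih =>
    intro hi
    rcases Nat.lt_or_ge i j with h' | h'
    · have : j = i + 1 := by omega
      rw [this]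
    · exact (ih h' (by omega)).trans (h i (by omega))

/-- Drisko's range. -/
theorem drisko {A : Fin m → Fin n → ℕ} (hA : ∀ c, Function.Injective (fun x => A x c))
    (hmn : 2 * m ≤ n + 1) (hmn' : m ≤ n) : ∃ T, PT A T ∧ T.card = m := by
  obtain ⟨T, hT, hmax⟩ := exists_max A
  refine ⟨T, hT, ?_⟩
  by_contra hne
  have h1 := card_le_rows hT
  have hF := card_free hT
  obtain ⟨Bs, Cs, h2, h3⟩ := chain hA hT (univ \ cols T)
    (fun c hc => (mem_sdiff.1 hc).2) (na_of_max hmax) m (by omega)
  have h4 : ∀ i, i ≤ m → i < (Bs i).card := by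
    intro i
    induction i with
    | zero =>
      intro _
      have h5 := S_card hT (h2 0 (by omega)).1.free
      omega
    | succ i ih =>
      intro hi
      have h5 := ih (by omega)
      obtain ⟨h6, h7, h8⟩ := h2 i (by omega)
      obtain ⟨_, _, _, h9⟩ := h3 i (by omega)
      have hne : ((univ \ cols T) \ Cs i).Nonempty := by
        rw [← card_pos, card_sdiff_of_subset h7]
        omega
      obtain ⟨c, hc⟩ := hne
      have h10 := h9 c hc
      have h11 := hh_ge hA hT h6.free c
      omega
  have h5 := h4 m le_rfl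
  have h6 : (Bs m).card ≤ m := by simpa using card_le_univ (Bs m)
  omega

/-- If no symbol occurs more than `lam` times in a row, then about
`m + C * sqrt (lam * m * log (m / lam))` columns suffice for a transversal. -/
theorem full_of_light (lam : ℕ) (hlam : 1 ≤ lam) (hmn : m ≤ n) {A : Fin m → Fin n → ℕ}
    (hA : ∀ c, Function.Injective (fun x => A x c))
    (hl : ∀ x s, (univ.filter (fun c => A x c = s)).card ≤ lam)
    (h : 128 * (Nat.log 2 (m / lam) + 3) * lam * m ≤ (n - m) ^ 2) :
    ∃ T, PT A T ∧ T.card = m := by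
  rcases Nat.lt_or_ge (n - m) m with hd | hd
  swap
  · exact drisko hA (by omega) hmn
  obtain ⟨T, hT, hmax⟩ := exists_max A
  refine ⟨T, hT, ?_⟩
  by_contra hne
  have hTm := card_le_rows hT
  have hF := card_free hT
  set F := univ \ cols T with hFdef
  set u := n - T.card with hu
  set L := Nat.log 2 (m / lam) + 1 with hL
  have hm0 : 0 < m := by omega
  -- `m > 384`
  have hm : 384 < m := by
    have h1 : (n - m) ^ 2 < m ^ 2 := Nat.pow_lt_pow_left hd (by norm_num)
    have h2 : 384 * m ≤ 128 * (Nat.log 2 (m / lam) + 3) * lam * m := by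
      apply Nat.mul_le_mul_right
      nlinarith [Nat.zero_le (Nat.log 2 (m / lam)), Nat.zero_le (Nat.log 2 (m / lam) * lam)]
    have h3 : 384 * m < m * m := by nlinarith
    exact Nat.lt_of_mul_lt_mul_right h3
  have hlogm : 2 ^ (Nat.log 2 (m / lam)) ≤ m := by
    rcases Nat.eq_zero_or_pos (m / lam) with h0 | h0
    · rw [h0]
      simp
      omega
    · exact (Nat.pow_log_le_self 2 (by omega)).trans (Nat.div_le_self m lam)
  have hmL : m < 2 ^ L * lam := by
    have h1 : m / lam < 2 ^ L := Nat.lt_pow_succ_log_self (by norm_num) _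
    exact (Nat.div_lt_iff_lt_mul (by omega)).1 h1
  have h2L : 2 * (L + 2) ≤ m := by
    have h1 : ∀ a, 5 ≤ a → 2 * a + 6 ≤ 2 ^ a := by
      intro a ha
      induction a, ha using Nat.le_induction with
      | base => norm_num
      | succ a _ ih => rw [pow_succ]; omega
    rcases Nat.lt_or_ge (Nat.log 2 (m / lam)) 5 with h2 | h2
    · omega
    · have := h1 _ h2
      omega
  have hu1 : n - m < u := by omega
  have hu2 : u < 2 * m := by omega
  have hnm : 128 * (L + 2) * lam * m ≤ (n - m) ^ 2 := by
    have : L + 2 = Nat.log 2 (m / lam) + 3 := by omega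
    rw [this]
    exact h
  have hu16 : 16 * (L + 2) ≤ n - m := by
    have h1 : (16 * (L + 2)) ^ 2 ≤ (n - m) ^ 2 := by
      refine le_trans ?_ hnm
      have h2 : 2 * (L + 2) ≤ lam * m := by nlinarith
      have h3 := Nat.mul_le_mul_left (128 * (L + 2)) h2
      calc (16 * (L + 2)) ^ 2 = 128 * (L + 2) * (2 * (L + 2)) := by ring
        _ ≤ 128 * (L + 2) * (lam * m) := h3
        _ = 128 * (L + 2) * lam * m := by ring
    exact (Nat.pow_le_pow_iff_left (by norm_num)).1 h1
  set N := u / 2 with hN
  set Z := u / (8 * lam) with hZ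
  obtain ⟨Bs, Cs, h2, h3⟩ := chain hA hT F
    (fun c hc => (mem_sdiff.1 hc).2) (na_of_max hmax) N (by omega)
  have hBm := chain_mono Bs N (fun i hi => (h3 i hi).1)
  have hCm := chain_mono Cs N (fun i hi => (h3 i hi).2.1)
  -- growth
  have hgrow : ∀ i, i < N → (Bs i).card + 1 ≤ (Bs (i + 1)).card := by
    intro i hi
    obtain ⟨h6, h7, h8⟩ := h2 i (by omega)
    obtain ⟨_, _, _, h9⟩ := h3 i (by omega)
    have hne : (F \ Cs i).Nonempty := by
      rw [← card_pos, card_sdiff_of_subset h7]
      omega
    obtain ⟨c, hc⟩ := hne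
    have h10 := h9 c hc
    have h11 := hh_ge hA hT h6.free c
    omega
  have key : ∀ j i, j < i → i < N → (Bs i).card ≤ (Bs j).card + Z →
      3 * (Bs i).card + 4 ≤ 3 * (Bs j).card + 4 * (((Bs (i + 1)).card - (Bs i).card) +
        ((Bs (j + 1)).card - (Bs j).card)) := by
    intro j i hji hi hZi
    obtain ⟨hIi, hCi, hci⟩ := h2 i (by omega)
    obtain ⟨hIj, hCj, hcj⟩ := h2 j (by omega)
    have hsub := hBm j i (by omega) (by omega)
    have hsubC := hCm j i (by omega) (by omega)
    have hcount := count_main hA hT (J := Bs j) (B := Bs i) hIj.free (Bs i \ Bs j) Subset.rfl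
      (F \ Cs i) (fun _ _ => True)
    set wi := (Bs (i + 1)).card - (Bs i).card with hwi
    set wj := (Bs (j + 1)).card - (Bs j).card with hwj
    set D := F \ Cs i with hD
    have hYc : (Bs i \ Bs j).card = (Bs i).card - (Bs j).card := card_sdiff_of_subset hsub
    set Y := Bs i \ Bs j with hY
    have hDc : D.card = u - i := by
      rw [hD, card_sdiff_of_subset hCi, hci, hF]
    have hs1 : ∑ y ∈ Y, (D.filter (fun _ => True)).card = Y.card * D.card := by
      simp
    have hs2 : ∑ c ∈ D, (hh A T (Bs i) c + hh A T (Bs j) c) ≤ D.card * (wi + wj) := by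
      rw [← smul_eq_mul]
      apply sum_le_card_nsmul
      intro c hc
      have h4 := (h3 i hi).2.2.2 c hc
      have h5 := (h3 j (by omega)).2.2.2 c (by
        rw [hD, mem_sdiff] at hc
        exact mem_sdiff.2 ⟨hc.1, fun h' => hc.2 (hsubC h')⟩)
      have h6 := hgrow i hi
      have h7 := hgrow j (by omega)
      omega
    have hs3 : ∑ y ∈ Y, (D.filter (fun c => True ∧ A y c ∈ S A T Y)).card ≤
        Y.card * (lam * Y.card) := by
      rw [← smul_eq_mul]
      apply sum_le_card_nsmul
      intro y _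
      refine le_trans (count_small D (fun _ => True) y (S A T Y) lam ?_) ?_
      · intro s _
        refine le_trans (card_le_card ?_) (hl y s)
        intro c hc
        rw [mem_filter] at hc
        exact mem_filter.2 ⟨mem_univ _, hc.2.2⟩
      · exact Nat.mul_le_mul_left _ (S_card_le hT Y)
    rw [hs1] at hcount
    have hk : 1 ≤ m - T.card := by omega
    have h8 : 8 * lam * Y.card ≤ u := by
      have h9 : Y.card ≤ Z := by
        rw [hYc]
        exact Nat.sub_le_iff_le_add'.2 hZi
      calc 8 * lam * Y.card ≤ 8 * lam * Z := Nat.mul_le_mul_left _ h9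
        _ ≤ u := Nat.mul_div_le u (8 * lam)
    have h9 : 8 * lam * Y.card ≤ 2 * D.card := by omega
    have h10 : Y.card * (lam * Y.card) * 4 ≤ D.card * Y.card := by
      have h9' : 4 * lam * Y.card ≤ D.card := by
        have : 8 * lam * Y.card = 2 * (4 * lam * Y.card) := by ring
        omega
      calc Y.card * (lam * Y.card) * 4 = 4 * lam * Y.card * Y.card := by ring
        _ ≤ D.card * Y.card := Nat.mul_le_mul_right _ h9'
    have h11 : D.card * (3 * Y.card + 4) ≤ D.card * (4 * (wi + wj)) := by
      have h12 : D.card ≤ D.card * (m - T.card) := Nat.le_mul_of_pos_right _ hk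
      have h13 : D.card * (3 * Y.card + 4) = 3 * (Y.card * D.card) + 4 * D.card := by ring
      have h14 : D.card * (4 * (wi + wj)) = 4 * (D.card * (wi + wj)) := by ring
      have h15 : D.card * Y.card = Y.card * D.card := by ring
      omega
    have h12 : 3 * Y.card + 4 ≤ 4 * (wi + wj) :=
      Nat.le_of_mul_le_mul_left h11 (by omega)
    have h13 : (Bs j).card ≤ (Bs i).card := card_le_card hsub
    omega
  -- windows
  have hwin := window (fun i => (Bs i).card) (fun i => (Bs (i + 1)).card - (Bs i).card) Z N (2 * L)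
    (fun i hi => by have := hgrow i hi; omega)
    (fun i hi => by have := hgrow i hi; omega) key (by
      have h4 : 8 * lam * Z ≤ u := Nat.mul_div_le u (8 * lam)
      have h5 : 8 * lam * Z < 2 * (2 ^ L * lam) := by omega
      have h6 : 4 * Z < 2 ^ L := by
        by_contra h7
        push Not at h7
        have := Nat.mul_le_mul_left (2 * lam) h7
        nlinarith
      have h7 : (2 : ℕ) ^ (2 * L) = 4 ^ L := by rw [pow_mul]; norm_num
      have h8 : (3 : ℕ) ^ (2 * L) = 9 ^ L := by rw [pow_mul]; norm_num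
      rw [h7, h8]
      have h9 : (4 : ℕ) ^ L * 2 ^ L = 8 ^ L := by rw [← mul_pow]; norm_num
      have h10 : (8 : ℕ) ^ L ≤ 9 ^ L := Nat.pow_le_pow_left (by norm_num) L
      have h11 : (4 : ℕ) ^ L * Z ≤ 4 ^ L * 2 ^ L := Nat.mul_le_mul_left _ (by omega)
      have h12 : 0 < (9 : ℕ) ^ L := Nat.pos_of_ne_zero (pow_ne_zero L (by norm_num))
      omega)
  set l := 2 * (2 * L + 4) with hl'
  have hJ : ∀ J, J * l ≤ N → J * (Z + 1) ≤ (Bs (J * l)).card := by
    intro J
    induction J with
    | zero => intro _; simp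
    | succ J ih =>
      intro hJ
      have h4 : (J + 1) * l = J * l + l := by ring
      rw [h4] at hJ ⊢
      have h5 := ih (by omega)
      have h6 := hwin (J * l) hJ
      have h7 : (J + 1) * (Z + 1) = J * (Z + 1) + (Z + 1) := by ring
      rw [h7]
      have h6' : (Bs (J * l)).card + Z < (Bs (J * l + l)).card := h6
      omega
  have hJ1 := hJ (N / l) (Nat.div_mul_le_self N l)
  have hJ2 : (Bs (N / l * l)).card ≤ m := by simpa using card_le_univ (Bs (N / l * l))
  set J := N / l with hJdef
  have hl0 : 0 < l := by omega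
  have h4 : N < l * (J + 1) := by
    have := Nat.lt_mul_div_succ N hl0
    simpa [hJdef] using this
  have h5 : u ≤ 4 * (l * J) := by
    have h6 : l * (J + 1) = l * J + l := by ring
    omega
  have h6 : u < 8 * lam * (Z + 1) := by
    have := Nat.lt_mul_div_succ u (show 0 < 8 * lam by omega)
    simpa [hZ] using this
  have h7 : J * (Z + 1) ≤ m := by omega
  have h8 : u * u ≤ 4 * (l * J) * (8 * lam * (Z + 1)) := Nat.mul_le_mul h5 (by omega)
  have h9 : 4 * (l * J) * (8 * lam * (Z + 1)) ≤ 32 * l * lam * m := by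
    calc 4 * (l * J) * (8 * lam * (Z + 1)) = 32 * l * lam * (J * (Z + 1)) := by ring
      _ ≤ 32 * l * lam * m := Nat.mul_le_mul_left _ h7
  have h10 : 32 * l * lam * m = 128 * (L + 2) * lam * m := by
    rw [hl']; ring
  have h11 : (n - m) ^ 2 < u * u := by nlinarith
  omega

end ColGrow
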