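import Mathlib

set_option autoImplicit false

namespace ColGrow

open Finset

/-- Existence of a reserve: a set of `d` columns meeting each of the sets `L x`, `x ∈ s`, in at
least `l` elements. -/
theorem exists_reserve {ι : Type*} (n d p l : ℕ) (hdp : d * p ≤ n) (hp : 0 < p)
    (s : Finset ι) (L : ι → Finset (Fin n)) (Λ : ℝ)
    (hL : ∀ x ∈ s, Λ + (n - d * p : ℝ) ≤ (L x).card)
    (hs : (s.card : ℝ) * Real.exp (-Λ / (2 * p)) * 2 ^ l < 2) :
    ∃ D0 : Finset (Fin n), D0.card = d ∧ ∀ x ∈ s, l ≤ (D0 ∩ L x).card := by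
  classical
  have hlt : ∀ (i : Fin d) (j : Fin p), i.1 * p + j.1 < n := by
    intro i j
    have h1 : i.1 * p + j.1 < (i.1 + 1) * p := by nlinarith [j.2]
    have h2 : (i.1 + 1) * p ≤ d * p := Nat.mul_le_mul_right _ i.2
    omega
  let φ : Fin d → Fin p → Fin n := fun i j => ⟨i.1 * p + j.1, hlt i j⟩
  have hφ : ∀ i j i' j', φ i j = φ i' j' → i = i' ∧ j = j' := by
    intro i j i' j' h
    have h1 : i.1 * p + j.1 = i'.1 * p + j'.1 := congrArg Fin.val h
    have h2 : i.1 = i'.1 := by
      have h3 : (i.1 * p + j.1) / p = i.1 := by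
        rw [mul_comm, Nat.mul_add_div hp, Nat.div_eq_of_lt j.2, add_zero]
      have h4 : (i'.1 * p + j'.1) / p = i'.1 := by
        rw [mul_comm, Nat.mul_add_div hp, Nat.div_eq_of_lt j'.2, add_zero]
      rw [← h3, h1, h4]
    refine ⟨Fin.ext h2, Fin.ext ?_⟩
    rw [h2] at h1
    omega
  let w : ι → Fin d → Fin p → ℝ := fun x i j => if φ i j ∈ L x then 1 / 2 else 1
  -- the sum over all choices
  have hsum : ∀ x ∈ s, ∑ f : Fin d → Fin p, ∏ i, w x i (f i) ≤
      (p : ℝ) ^ d * Real.exp (-Λ / (2 * p)) := by
    intro x hx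
    have h1 : ∑ f : Fin d → Fin p, ∏ i, w x i (f i) = ∏ i, ∑ j, w x i j := by
      rw [Finset.prod_univ_sum]
      simp
    rw [h1]
    set li : Fin d → ℝ := fun i => ((univ.filter (fun j => φ i j ∈ L x)).card : ℝ) with hli
    have h2 : ∀ i, ∑ j, w x i j = p - li i / 2 := by
      intro i
      have h3 : ∀ j, w x i j = 1 - (if φ i j ∈ L x then (1 : ℝ) / 2 else 0) := by
        intro j
        simp only [w]
        split_ifs <;> norm_num
      rw [sum_congr rfl (fun j _ => h3 j), sum_sub_distrib, ← sum_filter, sum_const, hli]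
      simp
      ring
    have hp' : (0 : ℝ) < p := by exact_mod_cast hp
    have h3 : ∀ i, ∑ j, w x i j ≤ p * Real.exp (-(li i) / (2 * p)) := by
      intro i
      rw [h2 i]
      have h4 := Real.add_one_le_exp (-(li i) / (2 * p))
      have h5 : (p : ℝ) - li i / 2 = p * (-(li i) / (2 * p) + 1) := by
        field_simp
        ring
      rw [h5]
      exact mul_le_mul_of_nonneg_left h4 hp'.le
    have h4 : ∏ i, ∑ j, w x i j ≤ ∏ i, (p * Real.exp (-(li i) / (2 * p))) := by
      apply prod_le_prod
      · intro i _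
        apply sum_nonneg
        intro j _
        simp only [w]
        split_ifs <;> norm_num
      · intro i _
        exact h3 i
    refine h4.trans ?_
    rw [prod_mul_distrib, prod_const, ← Real.exp_sum]
    simp only [card_univ, Fintype.card_fin]
    apply mul_le_mul_of_nonneg_left _ (by positivity)
    apply Real.exp_le_exp.2
    rw [← sum_div, sum_neg_distrib]
    -- the total number of elements in the blocks
    have h5 : Λ ≤ ∑ i, li i := by
      have h6 : (L x).card ≤ ∑ i, (univ.filter (fun j => φ i j ∈ L x)).card + (n - d * p) := by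
        have h7 : L x ⊆ (univ.biUnion (fun i : Fin d =>
            (univ.filter (fun j => φ i j ∈ L x)).image (fun j => φ i j))) ∪
            univ.filter (fun c : Fin n => d * p ≤ c.1) := by
          intro c hc
          rw [mem_union]
          by_cases h8 : d * p ≤ c.1
          · exact Or.inr (mem_filter.2 ⟨mem_univ _, h8⟩)
          · left
            push Not at h8
            rw [mem_biUnion]
            have h9 : c.1 / p < d := (Nat.div_lt_iff_lt_mul hp).2 h8
            have h10 : φ ⟨c.1 / p, h9⟩ ⟨c.1 % p, Nat.mod_lt _ hp⟩ = c := by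
              apply Fin.ext
              exact Nat.div_add_mod' c.1 p
            refine ⟨⟨c.1 / p, h9⟩, mem_univ _, mem_image.2 ⟨⟨c.1 % p, Nat.mod_lt _ hp⟩, ?_, h10⟩⟩
            rw [mem_filter]
            exact ⟨mem_univ _, by rw [h10]; exact hc⟩
        refine (card_le_card h7).trans ((card_union_le _ _).trans ?_)
        apply Nat.add_le_add
        · refine card_biUnion_le.trans (sum_le_sum (fun i _ => card_image_le))
        · have h8 : (univ.filter (fun c : Fin n => d * p ≤ c.1)).card ≤ (Ico (d * p) n).card := by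
            apply card_le_card_of_injOn (fun c => c.1)
            · intro c hc
              exact mem_coe.2 (mem_Ico.2 ⟨(mem_filter.1 hc).2, c.2⟩)
            · intro c _ c' _ h
              exact Fin.ext h
          rwa [Nat.card_Ico] at h8
      have h7 := hL x hx
      have h8 : ((L x).card : ℝ) ≤ ∑ i, li i + (n - d * p : ℝ) := by
        have h9 : ((L x).card : ℝ) ≤
            ((∑ i, (univ.filter (fun j => φ i j ∈ L x)).card + (n - d * p) : ℕ) : ℝ) := by
          exact_mod_cast h6
        refine h9.trans (le_of_eq ?_)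
        push_cast [Nat.cast_sub hdp]
        rfl
      linarith
    have h6 : (0 : ℝ) < 2 * p := by positivity
    exact div_le_div_of_nonneg_right (by linarith) h6.le
  -- choose a good function
  have hex : ∃ f : Fin d → Fin p, ∑ x ∈ s, ∏ i, w x i (f i) ≤
      s.card * Real.exp (-Λ / (2 * p)) := by
    by_contra hcon
    push Not at hcon
    have h1 : ∑ f : Fin d → Fin p, (s.card * Real.exp (-Λ / (2 * p))) <
        ∑ f : Fin d → Fin p, ∑ x ∈ s, ∏ i, w x i (f i) := by
      apply sum_lt_sum_of_nonempty
      · have : Nonempty (Fin p) := ⟨⟨0, hp⟩⟩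
        exact univ_nonempty
      · intro f _
        exact hcon f
    rw [sum_comm, sum_const, card_univ, Fintype.card_fun, Fintype.card_fin, Fintype.card_fin,
      nsmul_eq_mul] at h1
    have h2 : ∑ x ∈ s, ∑ f : Fin d → Fin p, ∏ i, w x i (f i) ≤
        ∑ x ∈ s, ((p : ℝ) ^ d * Real.exp (-Λ / (2 * p))) := sum_le_sum hsum
    rw [sum_const, nsmul_eq_mul] at h2
    push_cast at h1
    nlinarith
  obtain ⟨f, hf⟩ := hex
  refine ⟨univ.image (fun i => φ i (f i)), ?_, ?_⟩
  · rw [card_image_of_injective _ (fun i i' h => (hφ _ _ _ _ h).1)]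
    simp
  · intro x hx
    by_contra hcon
    push Not at hcon
    have h1 : ∏ i, w x i (f i) = (1 / 2 : ℝ) ^ (univ.filter (fun i => φ i (f i) ∈ L x)).card := by
      simp only [w]
      rw [prod_ite]
      simp
    have h2 : (univ.filter (fun i => φ i (f i) ∈ L x)).card ≤
        (univ.image (fun i => φ i (f i)) ∩ L x).card := by
      apply card_le_card_of_injOn (fun i => φ i (f i))
      · intro i hi
        have hi' := (mem_filter.1 hi).2
        exact mem_coe.2 (mem_inter.2 ⟨mem_image.2 ⟨i, mem_univ _, rfl⟩, hi'⟩)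
      · intro i _ i' _ h
        exact (hφ _ _ _ _ h).1
    have h3 : ∏ i, w x i (f i) ≤ ∑ x ∈ s, ∏ i, w x i (f i) := by
      apply single_le_sum (f := fun x => ∏ i, w x i (f i)) _ hx
      intro y _
      apply prod_nonneg
      intro i _
      simp only [w]
      split_ifs <;> norm_num
    have h4 : (univ.filter (fun i => φ i (f i) ∈ L x)).card + 1 ≤ l := by omega
    have h5 : (1 / 2 : ℝ) ^ (l - 1) ≤
        (1 / 2 : ℝ) ^ (univ.filter (fun i => φ i (f i) ∈ L x)).card :=
      pow_le_pow_of_le_one (by norm_num) (by norm_num) (by omega)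
    have h6 : (1 / 2 : ℝ) ^ (l - 1) * 2 ^ l = 2 := by
      have : l = (l - 1) + 1 := by omega
      rw [this, pow_succ, Nat.add_sub_cancel, ← mul_assoc, ← mul_pow]
      norm_num
    have h7 : (0 : ℝ) < 2 ^ l := by positivity
    rw [h1] at h3
    have h8 : (1 / 2 : ℝ) ^ (l - 1) ≤ s.card * Real.exp (-Λ / (2 * p)) := h5.trans (h3.trans hf)
    have h9 := mul_le_mul_of_nonneg_right h8 h7.le
    rw [h6] at h9
    linarith

end ColGrow
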