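import Pool.Agent.Lib.ColGrow.Det
import Pool.Agent.Lib.ColGrow.Reserve

set_option autoImplicit false

namespace ColGrow

open Finset

variable {m n : ℕ}

/-- A row in which every `N` symbols leave at least `n / M` cells has at least `n / M` light
cells. -/
theorem light_card (A : Fin m → Fin n → ℕ) (y : Fin m) (q N M : ℕ) (hqN : n < (N + 1) * (q + 1))
    (hy : ∀ P : Finset ℕ, P.card ≤ N → n ≤ M * (univ.filter (fun c => A y c ∉ P)).card) :
    n ≤ M * (univ.filter (fun c => LightCell A q y c)).card := by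
  set P := (univ.image (A y)).filter (fun s => q < (univ.filter (fun c => A y c = s)).card) with hP
  have h1 : P.card * (q + 1) ≤ n := by
    have h2 : P.card • (q + 1) ≤ ∑ s ∈ P, (univ.filter (fun c => A y c = s)).card := by
      apply card_nsmul_le_sum
      intro s hs
      exact (mem_filter.1 hs).2
    have h3 : ∑ s ∈ P, (univ.filter (fun c => A y c = s)).card ≤
        ∑ s ∈ univ.image (A y), (univ.filter (fun c => A y c = s)).card :=
      sum_le_sum_of_subset (filter_subset _ _)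
    have h4 : ∑ s ∈ univ.image (A y), (univ.filter (fun c => A y c = s)).card =
        (univ : Finset (Fin n)).card :=
      (card_eq_sum_card_image (A y) univ).symm
    rw [card_univ, Fintype.card_fin] at h4
    rw [smul_eq_mul] at h2
    omega
  have h2 : P.card ≤ N := by
    by_contra hcon
    push Not at hcon
    have := Nat.mul_le_mul_right (q + 1) (show N + 1 ≤ P.card from hcon)
    omega
  have h3 := hy P h2
  have h4 : (univ.filter (fun c => A y c ∉ P)) = univ.filter (fun c => LightCell A q y c) := by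
    ext c
    simp only [mem_filter, mem_univ, true_and, hP, mem_image, LightCell, not_and, not_lt]
    constructor
    · intro h
      exact h ⟨c, rfl⟩
    · intro h _
      exact h
  rwa [h4] at h3

/-- The reserve estimate. -/
theorem reserve_est (m n M d p l0 : ℕ) (hM : 1 ≤ M) (hm : 2 ^ 40 * M ^ 8 ≤ m)
    (hd1 : 8 * M * d ≤ m) (hd2 : m < 8 * M * (d + 1)) (hn1 : m ≤ n) (hp1 : d * p ≤ n)
    (hp2 : n < d * (p + 1)) (hl0 : 8 * M * l0 ≤ d) (s : ℕ) (hs : s ≤ m) :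
    (s : ℝ) * Real.exp (-((n : ℝ) / M - (n - d * p)) / (2 * p)) * 2 ^ l0 < 2 := by
  have hM' : (1 : ℝ) ≤ M := by exact_mod_cast hM
  have hm' : (2 : ℝ) ^ 40 * M ^ 8 ≤ m := by exact_mod_cast hm
  have hd1' : 8 * (M : ℝ) * d ≤ m := by exact_mod_cast hd1
  have hd2' : (m : ℝ) < 8 * M * (d + 1) := by exact_mod_cast hd2
  have hn1' : (m : ℝ) ≤ n := by exact_mod_cast hn1
  have hp1' : (d : ℝ) * p ≤ n := by exact_mod_cast hp1
  have hp2' : (n : ℝ) < d * (p + 1) := by exact_mod_cast hp2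
  have hl0' : 8 * (M : ℝ) * l0 ≤ d := by exact_mod_cast hl0
  have hs' : (s : ℝ) ≤ m := by exact_mod_cast hs
  have hM8 : (M : ℝ) ^ 4 ≤ M ^ 8 := pow_le_pow_right₀ hM' (by norm_num)
  have hM1 : (M : ℝ) ≤ M ^ 8 := by
    calc (M : ℝ) = M ^ 1 := (pow_one _).symm
      _ ≤ M ^ 8 := pow_le_pow_right₀ hM' (by norm_num)
  have hMpos : (0 : ℝ) < M := by linarith
  have hmpos : (0 : ℝ) < m := by nlinarith
  have hdpos : (0 : ℝ) < d := by
    by_contra hcon
    have h0 : (d : ℝ) = 0 := le_antisymm (not_lt.1 hcon) (Nat.cast_nonneg _)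
    rw [h0] at hd2'
    nlinarith
  have hppos : (0 : ℝ) < p := by
    by_contra hcon
    have h0 : (p : ℝ) = 0 := le_antisymm (not_lt.1 hcon) (Nat.cast_nonneg _)
    rw [h0] at hp2'
    nlinarith
  -- the exponent
  have hexp : (d : ℝ) / (4 * M) ≤ ((n : ℝ) / M - (n - d * p)) / (2 * p) := by
    rw [div_le_div_iff₀ (by positivity) (by positivity)]
    have h1 : (n : ℝ) - d * p ≤ d := by nlinarith
    have h2 : ((n : ℝ) / M - (n - d * p)) * (4 * M) = 4 * n - 4 * M * (n - d * p) := by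
      field_simp
    rw [h2]
    nlinarith
  have h2l : (2 : ℝ) ^ l0 ≤ Real.exp (d / (8 * M)) := by
    have h1 : (2 : ℝ) ≤ Real.exp 1 := by
      have := Real.add_one_le_exp (1 : ℝ)
      linarith
    calc (2 : ℝ) ^ l0 ≤ (Real.exp 1) ^ l0 := pow_le_pow_left₀ (by norm_num) h1 l0
      _ = Real.exp l0 := by rw [← Real.exp_nat_mul]; simp
      _ ≤ Real.exp (d / (8 * M)) := by
        apply Real.exp_le_exp.2
        rw [le_div_iff₀ (by positivity)]
        linarith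
  have hy : (16 : ℝ) * (d / (8 * M)) ^ 2 < 32 * Real.exp (d / (8 * M)) := by
    have h1 := Real.quadratic_le_exp_of_nonneg (show (0 : ℝ) ≤ d / (8 * M) by positivity)
    have h2 : (0 : ℝ) ≤ d / (8 * M) := by positivity
    nlinarith
  have hbig : (m : ℝ) * 16 ≤ 16 * (d / (8 * M)) ^ 2 := by
    rw [div_pow, mul_div_assoc', le_div_iff₀ (by positivity)]
    -- `m * 16 * (64 M^2) ≤ 16 d^2`
    have h1 : (m : ℝ) ≤ 16 * M * d := by
      have : (1 : ℝ) ≤ d := by
        have : 0 < d := by exact_mod_cast hdpos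
        exact_mod_cast this
      nlinarith
    have h2 : (m : ℝ) * m ≤ (16 * M * d) * (16 * M * d) := mul_le_mul h1 h1 hmpos.le (by positivity)
    have h3 : (2 : ℝ) ^ 40 * M ^ 4 * m ≤ m * m := by
      apply mul_le_mul_of_nonneg_right _ hmpos.le
      nlinarith
    have h4 : (2 : ℝ) ^ 40 * M ^ 4 * m ≤ 256 * M ^ 2 * d ^ 2 := by nlinarith
    have h5 : (2 : ℝ) ^ 32 * M ^ 2 * m ≤ d ^ 2 := by
      have h6 : (256 * (M : ℝ) ^ 2) * (2 ^ 32 * M ^ 2 * m) ≤ (256 * M ^ 2) * d ^ 2 := by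
        nlinarith
      exact le_of_mul_le_mul_left h6 (by positivity)
    have h7 : 0 ≤ (M : ℝ) ^ 2 * m := by positivity
    nlinarith
  -- conclusion
  have h1 : Real.exp (-((n : ℝ) / M - (n - d * p)) / (2 * p)) ≤ Real.exp (-(d / (4 * M))) := by
    apply Real.exp_le_exp.2
    rw [neg_div]
    linarith
  have h2 : (s : ℝ) * Real.exp (-((n : ℝ) / M - (n - d * p)) / (2 * p)) * 2 ^ l0 ≤
      m * Real.exp (-(d / (4 * M))) * Real.exp (d / (8 * M)) := by
    apply mul_le_mul _ h2l (by positivity) (by positivity)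
    exact mul_le_mul hs' h1 (by positivity) hmpos.le
  have h3 : Real.exp (-((d : ℝ) / (4 * M))) * Real.exp (d / (8 * M)) =
      (Real.exp (d / (8 * M)))⁻¹ := by
    rw [← Real.exp_add, ← Real.exp_neg]
    congr 1
    field_simp
    ring
  refine lt_of_le_of_lt h2 ?_
  rw [mul_assoc, h3, ← div_eq_mul_inv, div_lt_iff₀ (Real.exp_pos _)]
  linarith

theorem final_real (M k m n h d τ G : ℝ) (hM : 1 ≤ M) (hk : 1 ≤ k) (hG : 0 < G) (h0 : 0 ≤ h)
    (hm : 0 < m) (hhm : h ≤ m) (ham : 8 * M * (8 * M * G) ≤ m) (hd : 8 * M * d ≤ m)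
    (hn : m + h / k + m / M ≤ n) (hτ : n - d - m - 8 * M * G ≤ τ * (8 * M * G)) :
    (8 * M * (8 * M * G)) * h + m * (k * (8 * M * G) - G) <
      τ * ((8 * M * (8 * M * G)) * (k * (8 * M * G) - G)) := by
  have hM0 : 0 < M := by linarith
  have hk0 : 0 < k := by linarith
  obtain ⟨E, hE⟩ : ∃ E, E = m / (8 * M) := ⟨_, rfl⟩
  obtain ⟨r, hr⟩ : ∃ r, r = h / k := ⟨_, rfl⟩
  have hEm : m = 8 * M * E := by rw [hE]; field_simp
  have hmME : m / M = 8 * E := by rw [hE]; field_simp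
  have hrk : h = r * k := by rw [hr]; field_simp
  have hdE : d ≤ E := by
    rw [hE, le_div_iff₀ (by positivity)]; linarith
  have hgE : 8 * M * G ≤ E := by
    rw [hE, le_div_iff₀ (by positivity)]; linarith
  have hy : r + 5 * E ≤ τ * (8 * M * G) - E := by
    rw [hmME, ← hr] at hn
    linarith
  have hE0 : 0 < E := by rw [hE]; positivity
  have hr0 : 0 ≤ r := by rw [hr]; positivity
  have hrm : r ≤ m := by
    have : r ≤ r * k := le_mul_of_one_le_right hr0 hk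
    linarith
  have hMk : 1 ≤ M * k := one_le_mul_of_one_le_of_one_le hM hk
  have hfac : 0 < 8 * M * k - 1 := by linarith
  have h1 : (r + 5 * E) * (8 * M * k - 1) ≤ (τ * (8 * M * G) - E) * (8 * M * k - 1) :=
    mul_le_mul_of_nonneg_right hy hfac.le
  have h2 : 8 * M * (r * k) < (τ * (8 * M * G) - E) * (8 * M * k - 1) := by
    refine lt_of_lt_of_le ?_ h1
    have h3 : (r + 5 * E) * (8 * M * k - 1) =
        8 * M * (r * k) + (5 * (8 * M * E) * k - r - 5 * E) := by ring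
    rw [h3, ← hEm]
    have h4 : m ≤ m * k := le_mul_of_one_le_right hm.le hk
    have h5 : E ≤ M * E := le_mul_of_one_le_left hE0.le hM
    linarith
  have h3 : τ * ((8 * M * (8 * M * G)) * (k * (8 * M * G) - G)) -
      ((8 * M * (8 * M * G)) * h + m * (k * (8 * M * G) - G)) =
      8 * M * G * ((τ * (8 * M * G) - E) * (8 * M * k - 1) - 8 * M * (r * k)) := by
    rw [hrk, hEm]
    ring
  have h4 : 0 < 8 * M * G * ((τ * (8 * M * G) - E) * (8 * M * k - 1) - 8 * M * (r * k)) := by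
    apply mul_pos (by positivity)
    linarith
  linarith

theorem N_bound (m n M q a : ℕ) (ha : a = 2 ^ 24 * M ^ 6) (hq2 : m < 256 * M ^ 2 * a * (q + 1))
    (hd : n + 1 < 2 * m) : n < (2 ^ 33 * M ^ 8 + 1) * (q + 1) := by
  have h2 : 256 * M ^ 2 * a = 2 ^ 32 * M ^ 8 := by rw [ha]; ring
  rw [h2] at hq2
  have h3 : (2 ^ 33 * M ^ 8 + 1) * (q + 1) = 2 * (2 ^ 32 * M ^ 8 * (q + 1)) + (q + 1) := by
    ring
  linarith

theorem dm_bound (m n M d : ℕ) (hM : 1 ≤ M) (hmpos : 0 < m) (hd1 : 8 * M * d ≤ m)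
    (hnm : m ≤ M * (n - m)) : 8 * m ≤ 8 * M * (n - d - m) + m ∧ d + m ≤ n := by
  have h3 : d ≤ n - m := by
    by_contra hcon
    push Not at hcon
    have h4 : M * (n - m) ≤ M * d := Nat.mul_le_mul_left _ hcon.le
    have h5 : 8 * M * d = 8 * (M * d) := by ring
    omega
  have h6 : 0 < n - m := by
    rcases Nat.eq_zero_or_pos (n - m) with h | h
    · rw [h] at hnm
      omega
    · exact h
  have h1 : 8 * M * (n - d - m) + 8 * M * d = 8 * M * (n - m) := by
    have h2 : n - m = (n - d - m) + d := by omega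
    rw [h2]
    ring
  have h2 : 8 * M * (n - m) = 8 * (M * (n - m)) := by ring
  omega

theorem l_bound (m M Ω W d l0 l : ℕ) (hM : 1 ≤ M) (hm3 : 4096 * M ^ 3 ≤ 13 * m)
    (hΩ : Ω = 2048 * M ^ 3)
    (hd2 : m < 8 * M * (d + 1)) (hl02 : d < 8 * M * (l0 + 1)) (hl1 : 128 * M ^ 2 * l ≤ m)
    (hW1 : (Ω + 1) * W ≤ m) : l + (W + 1) * (2 * M) + W ≤ l0 := by
  have h1 : m < 64 * M ^ 2 * (l0 + 1) := by
    have h2 : 8 * M * (d + 1) ≤ 8 * M * (8 * M * (l0 + 1)) := Nat.mul_le_mul_left _ hl02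
    have h3 : 8 * M * (8 * M * (l0 + 1)) = 64 * M ^ 2 * (l0 + 1) := by ring
    omega
  have h2 : 2048 * M ^ 3 * W ≤ m := by
    have : 2048 * M ^ 3 * W ≤ (Ω + 1) * W := Nat.mul_le_mul_right _ (by omega)
    omega
  have h3 : 2048 * M ^ 2 * (l + (W + 1) * (2 * M) + W) < 2048 * M ^ 2 * (l0 + 1) := by
    have h4 : 2048 * M ^ 2 * (l + (W + 1) * (2 * M) + W) =
        16 * (128 * M ^ 2 * l) + 2 * (2048 * M ^ 3 * W) + 4096 * M ^ 3 + 2048 * M ^ 2 * W := by
      ring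
    have h5 : 2048 * M ^ 2 * W ≤ 2048 * M ^ 3 * W := by
      apply Nat.mul_le_mul_right
      apply Nat.mul_le_mul_left
      exact Nat.pow_le_pow_right hM (by norm_num)
    have h6 : 2048 * M ^ 2 * (l0 + 1) = 32 * (64 * M ^ 2 * (l0 + 1)) := by ring
    omega
  have h4 := Nat.lt_of_mul_lt_mul_left h3
  omega

theorem G_bound (m M Ω d l G q a : ℕ) (hM : 1 ≤ M) (hm2 : 256 * M ^ 2 ≤ m)
    (hΩ : Ω = 2048 * M ^ 3) (hG : G = 2 ^ 18 * M ^ 4) (hl : l = m / (128 * M ^ 2))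
    (hd1 : 8 * M * d ≤ m) (hl2 : m < 128 * M ^ 2 * (l + 1)) (hq1 : 256 * M ^ 2 * a * q ≤ m) :
    d * (2 * Ω) + (G + 1) * (q * a) < (G + 1) * l := by
  have hM2 : 0 < M ^ 2 := Nat.pos_of_ne_zero (by positivity)
  have h1 : 2 * (q * a) ≤ l := by
    rw [hl, Nat.le_div_iff_mul_le (by positivity)]
    calc 2 * (q * a) * (128 * M ^ 2) = 256 * M ^ 2 * a * q := by ring
      _ ≤ m := hq1
  have h2 : d * (2 * Ω) * 2 ≤ 1024 * M ^ 2 * m := by
    calc d * (2 * Ω) * 2 = 1024 * M ^ 2 * (8 * M * d) := by rw [hΩ]; ring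
      _ ≤ 1024 * M ^ 2 * m := Nat.mul_le_mul_left _ hd1
  have h3 : 1024 * M ^ 2 * m < (G + 1) * l := by
    have h4 : 2048 * M ^ 2 * m ≤ 2048 * M ^ 2 * (128 * M ^ 2 * (l + 1)) :=
      Nat.mul_le_mul_left _ hl2.le
    have h5 : 2048 * M ^ 2 * (128 * M ^ 2 * (l + 1)) = G * l + G := by rw [hG]; ring
    have h6 : (G + 1) * l = G * l + l := by ring
    have h7 : G ≤ 1024 * M ^ 2 * m := by
      rw [hG]
      calc 2 ^ 18 * M ^ 4 = 1024 * M ^ 2 * (256 * M ^ 2) := by ring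
        _ ≤ 1024 * M ^ 2 * m := Nat.mul_le_mul_left _ hm2
    have h8 : 2048 * M ^ 2 * m = 2 * (1024 * M ^ 2 * m) := by ring
    have h9 : 0 < l := by
      rw [hl]
      exact Nat.div_pos (by omega) (by positivity)
    omega
  have h4 : 2 * ((G + 1) * (q * a)) ≤ (G + 1) * l := by
    calc 2 * ((G + 1) * (q * a)) = (G + 1) * (2 * (q * a)) := by ring
      _ ≤ (G + 1) * l := Nat.mul_le_mul_left _ h1
  omega

theorem light_rows_nat (M : ℕ) (hM : 1 ≤ M) (hm : 2 ^ 40 * M ^ 8 ≤ m) {A : Fin m → Fin n → ℕ}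
    (hA : ∀ c, Function.Injective (fun x => A x c)) (H : Finset (Fin m))
    (hH : ∀ x, x ∉ H → ∀ P : Finset ℕ, P.card ≤ 2 ^ 33 * M ^ 8 →
      n ≤ M * (univ.filter (fun c => A x c ∉ P)).card) (k : ℕ) (hk : 1 ≤ k)
    (hn : (m : ℝ) + H.card / k + m / M ≤ n) :
    ∃ T, PT A T ∧ m + 1 ≤ T.card + k := by
  have hM' : (1 : ℝ) ≤ M := by exact_mod_cast hM
  have hMpos : (0 : ℝ) < M := by linarith
  have hk' : (1 : ℝ) ≤ k := by exact_mod_cast hk
  have hkpos : (0 : ℝ) < k := by linarith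
  have hM8 : 1 ≤ M ^ 8 := Nat.one_le_pow _ _ hM
  have hmpos : 0 < m := by omega
  have hmpos' : (0 : ℝ) < m := by exact_mod_cast hmpos
  have hHm : H.card ≤ m := by simpa using card_le_univ H
  have hHk : (0 : ℝ) ≤ (H.card : ℝ) / k := by positivity
  have hmM : (0 : ℝ) ≤ (m : ℝ) / M := by positivity
  have hmn : m ≤ n := by
    have : (m : ℝ) ≤ n := by linarith
    exact_mod_cast this
  rcases Nat.lt_or_ge (n + 1) (2 * m) with hd | hd
  swap
  · obtain ⟨T, hT, hTm⟩ := drisko hA hd hmn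
    exact ⟨T, hT, by omega⟩
  have hnm : m ≤ M * (n - m) := by
    have h1 : (m : ℝ) / M ≤ n - m := by linarith
    rw [div_le_iff₀ hMpos] at h1
    have h2 : (m : ℝ) ≤ (M * (n - m) : ℕ) := by
      push_cast [Nat.cast_sub hmn]
      linarith
    exact_mod_cast h2
  have hM3 : M ^ 3 ≤ M ^ 8 := Nat.pow_le_pow_right hM (by norm_num)
  have hM2 : M ^ 2 ≤ M ^ 8 := Nat.pow_le_pow_right hM (by norm_num)
  have hM6 : M ^ 6 ≤ M ^ 8 := Nat.pow_le_pow_right hM (by norm_num)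
  have hM1 : M ≤ M ^ 8 := by
    calc M = M ^ 1 := (pow_one _).symm
      _ ≤ M ^ 8 := Nat.pow_le_pow_right hM (by norm_num)
  have hm3 : 4096 * M ^ 3 ≤ 13 * m := by omega
  have hm2 : 256 * M ^ 2 ≤ m := by omega
  have hm6 : 2 ^ 24 * M ^ 6 ≤ m := by omega
  have hm1 : 8 * M ≤ m := by omega
  clear hM3 hM2 hM6 hM1
  -- parameters
  obtain ⟨Ω, hΩ⟩ : ∃ Ω, Ω = 2048 * M ^ 3 := ⟨_, rfl⟩
  obtain ⟨W, hW⟩ : ∃ W, W = m / (Ω + 1) := ⟨_, rfl⟩
  obtain ⟨d, hd'⟩ : ∃ d, d = m / (8 * M) := ⟨_, rfl⟩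
  obtain ⟨l0, hl0⟩ : ∃ l0, l0 = d / (8 * M) := ⟨_, rfl⟩
  obtain ⟨l, hl⟩ : ∃ l, l = m / (128 * M ^ 2) := ⟨_, rfl⟩
  obtain ⟨G, hG⟩ : ∃ G, G = 2 ^ 18 * M ^ 4 := ⟨_, rfl⟩
  obtain ⟨g, hg⟩ : ∃ g, g = 8 * M * G := ⟨_, rfl⟩
  obtain ⟨a, ha⟩ : ∃ a, a = 8 * M * g := ⟨_, rfl⟩
  obtain ⟨q, hq⟩ : ∃ q, q = m / (256 * M ^ 2 * a) := ⟨_, rfl⟩
  have ha' : a = 2 ^ 24 * M ^ 6 := by rw [ha, hg, hG]; ring
  have ham : a ≤ m := by rw [ha']; exact hm6
  have hGpos : 0 < G := by rw [hG]; positivity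
  have hgpos : 0 < g := by rw [hg]; positivity
  have hapos : 0 < a := by rw [ha]; positivity
  have hd1 : 8 * M * d ≤ m := by rw [hd']; exact Nat.mul_div_le _ _
  have hd2 : m < 8 * M * (d + 1) := by rw [hd']; exact Nat.lt_mul_div_succ _ (by omega)
  have hl01 : 8 * M * l0 ≤ d := by rw [hl0]; exact Nat.mul_div_le _ _
  have hl02 : d < 8 * M * (l0 + 1) := by rw [hl0]; exact Nat.lt_mul_div_succ _ (by omega)
  have hl1 : 128 * M ^ 2 * l ≤ m := by rw [hl]; exact Nat.mul_div_le _ _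
  have hl2 : m < 128 * M ^ 2 * (l + 1) := by
    rw [hl]; exact Nat.lt_mul_div_succ _ (by positivity)
  have hW1 : (Ω + 1) * W ≤ m := by rw [hW]; exact Nat.mul_div_le _ _
  have hW2 : m < (Ω + 1) * (W + 1) := by rw [hW]; exact Nat.lt_mul_div_succ _ (by omega)
  have hq1 : 256 * M ^ 2 * a * q ≤ m := by rw [hq]; exact Nat.mul_div_le _ _
  have hq2 : m < 256 * M ^ 2 * a * (q + 1) := by
    rw [hq]; exact Nat.lt_mul_div_succ _ (by positivity)
  have hdpos : 0 < d := by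
    rw [hd']
    exact Nat.div_pos hm1 (by omega)
  -- the reserve
  obtain ⟨p, hp⟩ : ∃ p, p = n / d := ⟨_, rfl⟩
  have hp1 : d * p ≤ n := by rw [hp]; exact Nat.mul_div_le _ _
  have hp2 : n < d * (p + 1) := by rw [hp]; exact Nat.lt_mul_div_succ _ hdpos
  have hdn : d ≤ n := by
    have : d ≤ 8 * M * d := Nat.le_mul_of_pos_left _ (by omega)
    omega
  have hppos : 0 < p := by rw [hp]; exact Nat.div_pos hdn hdpos
  obtain ⟨D0, hD0c, hD0⟩ := exists_reserve n d p l0 hp1 hppos (univ \ H)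
    (fun y => univ.filter (fun c => LightCell A q y c)) ((n : ℝ) / M - (n - d * p)) (by
      intro y hy
      have h1 := light_card A y q (2 ^ 33 * M ^ 8) M (N_bound m n M q a ha' hq2 hd)
        (hH y (mem_sdiff.1 hy).2)
      have h2 : (n : ℝ) / M ≤ (univ.filter (fun c => LightCell A q y c)).card := by
        rw [div_le_iff₀ hMpos]
        have : (n : ℝ) ≤ M * (univ.filter (fun c => LightCell A q y c)).card := by
          exact_mod_cast h1
        linarith
      linarith)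
    (reserve_est m n M d p l0 hM hm hd1 hd2 hmn hp1 hp2 hl01 _ (by
      simpa using card_le_univ (univ \ H)))
  have hgood : ∀ y, y ∉ H → l0 ≤ (D0.filter (fun c => LightCell A q y c)).card := by
    intro y hy
    have h1 := hD0 y (mem_sdiff.2 ⟨mem_univ _, hy⟩)
    have h2 : D0 ∩ univ.filter (fun c => LightCell A q y c) =
        D0.filter (fun c => LightCell A q y c) := by
      ext c
      simp
    rwa [h2] at h1
  obtain ⟨τ, hτ⟩ : ∃ τ, τ = (n + k - d - m) / g := ⟨_, rfl⟩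
  have hτ1 : g * τ ≤ n + k - d - m := by rw [hτ]; exact Nat.mul_div_le _ _
  have hτ2 : n + k - d - m < g * (τ + 1) := by rw [hτ]; exact Nat.lt_mul_div_succ _ hgpos
  obtain ⟨hdm, hdle⟩ := dm_bound m n M d hM hmpos hd1 hnm
  have hGg : G ≤ g := by
    rw [hg]
    exact Nat.le_mul_of_pos_left _ (by omega)
  have hgkg : g ≤ k * g := Nat.le_mul_of_pos_left _ hk
  have hGkg : G ≤ k * g := hGg.trans hgkg
  refine main_det hA D0 d hD0c W Ω hW2 k q l l0 (2 * M) a G g H hgood ?_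
    (l_bound m M Ω W d l0 l hM hm3 hΩ hd2 hl02 hl1 hW1)
    (G_bound m M Ω d l G q a hM hm2 hΩ hG hl hd1 hl2 hq1) hGkg τ ?_ ?_
  · -- hK0
    have h1 : (2 * M + 1) * (n - d - m) = 2 * M * (n - d - m) + (n - d - m) := by ring
    have h2 : 8 * M * (n - d - m) = 4 * (2 * M * (n - d - m)) := by ring
    clear * - h1 h2 hdm hmpos
    omega
  · -- hτ
    have h1 : τ * g = g * τ := mul_comm _ _
    clear * - h1 hτ1 hdle
    omega
  · -- final inequality
    have hcast : ((k * g - G : ℕ) : ℝ) = k * g - G := by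
      rw [Nat.cast_sub hGkg]
      push_cast
      ring
    have hgR : (g : ℝ) = 8 * M * G := by rw [hg]; push_cast; ring
    have haR : (a : ℝ) = 8 * M * g := by rw [ha]; push_cast; ring
    have hgoal : (a : ℝ) * H.card + m * (k * g - G) < τ * (a * (k * g - G)) := by
      rw [haR, hgR]
      apply final_real M k m n H.card d τ G hM' hk' (by exact_mod_cast hGpos)
        (Nat.cast_nonneg _) hmpos' (by exact_mod_cast hHm)
      · rw [← hgR, ← haR]; exact_mod_cast ham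
      · exact_mod_cast hd1
      · exact hn
      · rw [← hgR]
        have h1 : n ≤ g * (τ + 1) + d + m := by
          clear * - hτ2 hdle
          omega
        have h2 : (n : ℝ) ≤ g * (τ + 1) + d + m := by exact_mod_cast h1
        linarith
    rw [← hcast] at hgoal
    exact_mod_cast hgoal

end ColGrow
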