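import Pool.Agent.Lib.ColGrow.Light

set_option autoImplicit false

namespace ColGrow

open Finset

variable {m n : ℕ}

/-- The cell `(y, c)` is `q`-light: its symbol occurs at most `q` times in row `y`. -/
def LightCell (A : Fin m → Fin n → ℕ) (q : ℕ) (y : Fin m) (c : Fin n) : Prop :=
  (univ.filter (fun c' => A y c' = A y c)).card ≤ q

instance (A : Fin m → Fin n → ℕ) (q : ℕ) (y : Fin m) (c : Fin n) :
    Decidable (LightCell A q y c) := by
  unfold LightCell
  infer_instance

/-- Growing with reserve columns until it is slow for all reserve columns. -/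
theorem saturate {A : Fin m → Fin n → ℕ} (hA : ∀ c, Function.Injective (fun x => A x c))
    {T : Finset (Fin m × Fin n)} (hT : PT A T) (F D0 : Finset (Fin n))
    (hF : ∀ c ∈ F, c ∉ cols T) (W Ω : ℕ) (hW : m < (Ω + 1) * (W + 1))
    (hNA : ∀ B C, Inv A T B C → C ⊆ F → (C ∩ D0).card ≤ W → ∀ c ∈ F \ C, ∀ x ∈ B,
      A x c ∈ syms A T) (C : Finset (Fin n)) (hC : C ⊆ F \ D0) :
    ∀ (M : ℕ) (B : Finset (Fin m)) (E : Finset (Fin n)), m ≤ B.card + M → Inv A T B (C ∪ E) →
      E ⊆ D0 ∩ F → (Ω + 1) * E.card ≤ B.card →
      ∃ (B' : Finset (Fin m)) (E' : Finset (Fin n)), B ⊆ B' ∧ E ⊆ E' ∧ Inv A T B' (C ∪ E') ∧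
        E' ⊆ D0 ∩ F ∧ (Ω + 1) * E'.card ≤ B'.card ∧ ∀ c ∈ (D0 ∩ F) \ E', hh A T B' c ≤ Ω := by
  intro M
  induction M with
  | zero =>
    intro B E hM hI hE hEB
    refine ⟨B, E, Subset.rfl, Subset.rfl, hI, hE, hEB, ?_⟩
    -- `B` is everything, so there is no growth
    intro c hc
    by_contra hcon
    push Not at hcon
    have hBm : B.card ≤ m := by simpa using card_le_univ B
    have hEW : E.card ≤ W := by
      by_contra h
      push Not at h
      have : (Ω + 1) * (W + 1) ≤ (Ω + 1) * E.card := Nat.mul_le_mul_left _ h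
      omega
    have hCE : (C ∪ E) ∩ D0 ⊆ E := by
      intro d hd
      rw [mem_inter, mem_union] at hd
      rcases hd.1 with h | h
      · exact absurd hd.2 (mem_sdiff.1 (hC h)).2
      · exact h
    have hc' := mem_sdiff.1 hc
    have hcF := (mem_inter.1 hc'.1).2
    have hcC : c ∉ C ∪ E := by
      rw [mem_union]
      rintro (h | h)
      · exact (mem_sdiff.1 (hC h)).2 (mem_inter.1 hc'.1).1
      · exact hc'.2 h
    have hCF : C ∪ E ⊆ F := by
      intro d hd
      rcases mem_union.1 hd with h | h
      · exact (mem_sdiff.1 (hC h)).1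
      · exact (mem_inter.1 (hE h)).2
    have h1 := card_nxt hA hT (B := B) (c := c)
      (hNA B (C ∪ E) hI hCF ((card_le_card hCE).trans hEW) c (mem_sdiff.2 ⟨hcF, hcC⟩))
    have h2 : (nxt A T B c).card ≤ m := by simpa using card_le_univ (nxt A T B c)
    omega
  | succ M ih =>
    intro B E hM hI hE hEB
    by_cases hslow : ∀ c ∈ (D0 ∩ F) \ E, hh A T B c ≤ Ω
    · exact ⟨B, E, Subset.rfl, Subset.rfl, hI, hE, hEB, hslow⟩
    push Not at hslow
    obtain ⟨c, hc, hcon⟩ := hslow
    have hBm : B.card ≤ m := by simpa using card_le_univ B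
    have hEW : E.card ≤ W := by
      by_contra h
      push Not at h
      have : (Ω + 1) * (W + 1) ≤ (Ω + 1) * E.card := Nat.mul_le_mul_left _ h
      omega
    have hCE : (C ∪ E) ∩ D0 ⊆ E := by
      intro d hd
      rw [mem_inter, mem_union] at hd
      rcases hd.1 with h | h
      · exact absurd hd.2 (mem_sdiff.1 (hC h)).2
      · exact h
    have hc' := mem_sdiff.1 hc
    have hcF := (mem_inter.1 hc'.1).2
    have hcC : c ∉ C ∪ E := by
      rw [mem_union]
      rintro (h | h)
      · exact (mem_sdiff.1 (hC h)).2 (mem_inter.1 hc'.1).1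
      · exact hc'.2 h
    have hCF : C ∪ E ⊆ F := by
      intro d hd
      rcases mem_union.1 hd with h | h
      · exact (mem_sdiff.1 (hC h)).1
      · exact (mem_inter.1 (hE h)).2
    have h1 := card_nxt hA hT (B := B) (c := c)
      (hNA B (C ∪ E) hI hCF ((card_le_card hCE).trans hEW) c (mem_sdiff.2 ⟨hcF, hcC⟩))
    have h3 := hI.step (hF c hcF) hcC
    have h4 : insert c (C ∪ E) = C ∪ insert c E := by
      ext d
      simp only [mem_insert, mem_union]
      tauto
    rw [h4] at h3
    obtain ⟨B', E', h5, h6, h7, h8, h9, h10⟩ := ih (nxt A T B c) (insert c E) (by omega) h3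
      (by
        intro d hd
        rcases mem_insert.1 hd with rfl | hd
        · exact hc'.1
        · exact hE hd)
      (by
        rw [card_insert_of_notMem hc'.2, h1]
        have : (Ω + 1) * (E.card + 1) = (Ω + 1) * E.card + (Ω + 1) := by ring
        omega)
    exact ⟨B', E', (subset_nxt A T B c).trans h5, (subset_insert _ _).trans h6, h7, h8, h9, h10⟩

/-- A chain of slow states, each obtained with one non-reserve column. -/
theorem chain2 {A : Fin m → Fin n → ℕ} (hA : ∀ c, Function.Injective (fun x => A x c))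
    {T : Finset (Fin m × Fin n)} (hT : PT A T) (F D0 : Finset (Fin n))
    (hF : ∀ c ∈ F, c ∉ cols T) (W Ω : ℕ) (hW : m < (Ω + 1) * (W + 1))
    (hNA : ∀ B C, Inv A T B C → C ⊆ F → (C ∩ D0).card ≤ W → ∀ c ∈ F \ C, ∀ x ∈ B,
      A x c ∈ syms A T) (k : ℕ) (hk : k ≤ m - T.card) (v : ℕ) (hv : v ≤ (F \ D0).card) :
    ∃ (Bs : ℕ → Finset (Fin m)) (Cs Es : ℕ → Finset (Fin n)),
      (∀ i, i ≤ v → Inv A T (Bs i) (Cs i ∪ Es i) ∧ Cs i ⊆ F \ D0 ∧ (Cs i).card = i ∧
        Es i ⊆ D0 ∩ F ∧ (Ω + 1) * (Es i).card ≤ (Bs i).card ∧
        ∀ c ∈ (D0 ∩ F) \ Es i, hh A T (Bs i) c ≤ Ω) ∧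
      (∀ i, i < v → Bs i ⊆ Bs (i + 1) ∧ Es i ⊆ Es (i + 1) ∧
        (Bs i).card + k ≤ (Bs (i + 1)).card) := by
  induction v with
  | zero =>
    obtain ⟨B', E', h5, h6, h7, h8, h9, h10⟩ := saturate hA hT F D0 hF W Ω hW hNA ∅
      (empty_subset _) m (univ \ rows T) ∅ (by omega)
      (by
        have := Inv.base (A := A) hT
        simpa using this) (empty_subset _) (by simp)
    refine ⟨fun _ => B', fun _ => ∅, fun _ => E', ?_, ?_⟩
    · intro i hi
      have : i = 0 := by omega
      subst this
      exact ⟨h7, empty_subset _, card_empty, h8, h9, h10⟩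
    · intro i hi
      omega
  | succ v ih =>
    obtain ⟨Bs, Cs, Es, h1, h2⟩ := ih (by omega)
    obtain ⟨hI, hC, hCc, hE, hEB, hslow⟩ := h1 v le_rfl
    have hne : ((F \ D0) \ Cs v).Nonempty := by
      rw [← card_pos, card_sdiff_of_subset hC]
      omega
    obtain ⟨c, hc⟩ := hne
    have hc' := mem_sdiff.1 hc
    have hc'' := mem_sdiff.1 hc'.1
    have hBm : (Bs v).card ≤ m := by simpa using card_le_univ (Bs v)
    have hEW : (Es v).card ≤ W := by
      by_contra h
      push Not at h
      have : (Ω + 1) * (W + 1) ≤ (Ω + 1) * (Es v).card := Nat.mul_le_mul_left _ h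
      omega
    have hCE : (Cs v ∪ Es v) ∩ D0 ⊆ Es v := by
      intro d hd
      rw [mem_inter, mem_union] at hd
      rcases hd.1 with h | h
      · exact absurd hd.2 (mem_sdiff.1 (hC h)).2
      · exact h
    have hcC : c ∉ Cs v ∪ Es v := by
      rw [mem_union]
      rintro (h | h)
      · exact hc'.2 h
      · exact hc''.2 (mem_inter.1 (hE h)).1
    have hCF : Cs v ∪ Es v ⊆ F := by
      intro d hd
      rcases mem_union.1 hd with h | h
      · exact (mem_sdiff.1 (hC h)).1
      · exact (mem_inter.1 (hE h)).2
    have hcard := card_nxt hA hT (B := Bs v) (c := c)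
      (hNA (Bs v) (Cs v ∪ Es v) hI hCF ((card_le_card hCE).trans hEW) c
        (mem_sdiff.2 ⟨hc''.1, hcC⟩))
    have hhge := hh_ge hA hT hI.free c
    have h3 := hI.step (hF c hc''.1) hcC
    rw [← insert_union] at h3
    have hCi : insert c (Cs v) ⊆ F \ D0 := by
      intro d hd
      rcases mem_insert.1 hd with rfl | hd
      · exact hc'.1
      · exact hC hd
    obtain ⟨B', E', h5, h6, h7, h8, h9, h10⟩ := saturate hA hT F D0 hF W Ω hW hNA
      (insert c (Cs v)) hCi m (nxt A T (Bs v) c) (Es v) (by omega) h3 hE (by omega)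
    refine ⟨Function.update Bs (v + 1) B', Function.update Cs (v + 1) (insert c (Cs v)),
      Function.update Es (v + 1) E', ?_, ?_⟩
    · intro i hi
      rcases Nat.lt_or_ge i (v + 1) with h | h
      · rw [Function.update_of_ne (by omega), Function.update_of_ne (by omega),
          Function.update_of_ne (by omega)]
        exact h1 i (by omega)
      · have : i = v + 1 := by omega
        subst this
        rw [Function.update_self, Function.update_self, Function.update_self]
        refine ⟨h7, hCi, ?_, h8, h9, h10⟩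
        rw [card_insert_of_notMem hc'.2, hCc]
    · intro i hi
      rcases Nat.lt_or_ge i v with h | h
      · have e1 : Function.update Bs (v + 1) B' i = Bs i := Function.update_of_ne (by omega) _ _
        have e2 : Function.update Es (v + 1) E' i = Es i := Function.update_of_ne (by omega) _ _
        have e3 : Function.update Bs (v + 1) B' (i + 1) = Bs (i + 1) :=
          Function.update_of_ne (by omega) _ _
        have e4 : Function.update Es (v + 1) E' (i + 1) = Es (i + 1) :=
          Function.update_of_ne (by omega) _ _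
        rw [e1, e2, e3, e4]
        exact h2 i h
      · have : i = v := by omega
        subst this
        have e1 : Function.update Bs (i + 1) B' i = Bs i := Function.update_of_ne (by omega) _ _
        have e2 : Function.update Es (i + 1) E' i = Es i := Function.update_of_ne (by omega) _ _
        rw [e1, e2, Function.update_self, Function.update_self]
        refine ⟨(subset_nxt A T _ c).trans h5, h6, ?_⟩
        have := card_le_card h5
        omega

/-- The block inequality. -/
theorem blocks {A : Fin m → Fin n → ℕ} (hA : ∀ c, Function.Injective (fun x => A x c))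
    {T : Finset (Fin m × Fin n)} (hT : PT A T) (F D0 : Finset (Fin n))
    (hF : F = univ \ cols T) (W Ω : ℕ) (hW : m < (Ω + 1) * (W + 1))
    (hNA : ∀ B C, Inv A T B C → C ⊆ F → (C ∩ D0).card ≤ W → ∀ c ∈ F \ C, ∀ x ∈ B,
      A x c ∈ syms A T) (k : ℕ) (hk : k ≤ m - T.card)
    (q l l0 r a G g d : ℕ) (Hb : Finset (Fin m))
    (hgood : ∀ y, y ∉ Hb → l0 ≤ (D0.filter (fun c => LightCell A q y c)).card)
    (hr : (cols T ∩ D0).card ≤ r) (hl : l + r + W ≤ l0) (hd : D0.card = d)
    (hG : d * (2 * Ω) + (G + 1) * (q * a) < (G + 1) * l) (hGg : G ≤ k * g)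
    (τ : ℕ) (hτ : τ * g ≤ (F \ D0).card) :
    τ * (a * (k * g - G)) ≤ a * Hb.card + m * (k * g - G) := by
  obtain ⟨Bs, Cs, Es, h1, h2⟩ := chain2 hA hT F D0
    (fun c hc => by rw [hF] at hc; exact (mem_sdiff.1 hc).2) W Ω hW hNA k hk _ le_rfl
  set v := (F \ D0).card with hv
  have hBm := chain_mono Bs v (fun i hi => (h2 i hi).1)
  have hEm := chain_mono Es v (fun i hi => (h2 i hi).2.1)
  have hgrow : ∀ e j, j + e ≤ v → (Bs j).card + k * e ≤ (Bs (j + e)).card := by
    intro e
    induction e with
    | zero => intro j _; simp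
    | succ e ih =>
      intro j hj
      have h3 := ih j (by omega)
      have h4 := (h2 (j + e) (by omega)).2.2
      rw [← add_assoc]
      have : k * (e + 1) = k * e + k := by ring
      omega
  set X := k * g - G with hX
  have hstep : ∀ j, j + g ≤ v →
      a * X + a * (Bs j ∩ Hb).card + (Bs j).card * X ≤
        a * (Bs (j + g) ∩ Hb).card + (Bs (j + g)).card * X := by
    intro j hj
    obtain ⟨hIi, hCi, hCci, hEi, hEBi, hslowi⟩ := h1 (j + g) hj
    obtain ⟨hIj, hCj, hCcj, hEj, hEBj, hslowj⟩ := h1 j (by omega)
    have hsub := hBm j (j + g) (by omega) hj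
    have hsubE := hEm j (j + g) (by omega) hj
    set B := Bs (j + g) with hB
    set J := Bs j with hJ
    have hYc : (B \ J).card = B.card - J.card := card_sdiff_of_subset hsub
    have hBJ : J.card ≤ B.card := card_le_card hsub
    have hcap : (J ∩ Hb).card + ((B \ J) ∩ Hb).card = (B ∩ Hb).card := by
      rw [← card_union_of_disjoint]
      · congr 1
        ext x
        simp only [mem_union, mem_inter, mem_sdiff]
        constructor
        · rintro (⟨h3, h4⟩ | ⟨⟨h3, _⟩, h4⟩)
          · exact ⟨hsub h3, h4⟩
          · exact ⟨h3, h4⟩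
        · rintro ⟨h3, h4⟩
          by_cases h5 : x ∈ J
          · exact Or.inl ⟨h5, h4⟩
          · exact Or.inr ⟨⟨h3, h5⟩, h4⟩
      · rw [disjoint_left]
        intro x hx hx'
        exact (mem_sdiff.1 (mem_inter.1 hx').1).2 (mem_inter.1 hx).1
    rcases Nat.lt_or_ge a (B \ J).card with hbig | hsmall
    · -- large jump
      have h3 : a * X + J.card * X ≤ B.card * X := by
        rw [← add_mul]
        apply Nat.mul_le_mul_right
        omega
      have h4 : a * (J ∩ Hb).card ≤ a * (B ∩ Hb).card := Nat.mul_le_mul_left _ (by omega)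
      omega
    · -- small block
      set Yg := (B \ J) \ Hb with hYg
      set D := (D0 ∩ F) \ Es (j + g) with hD
      have hcount := count_main hA hT (J := J) (B := B) hIj.free Yg sdiff_subset
        D (fun y c => LightCell A q y c)
      have hBm' : B.card ≤ m := by simpa using card_le_univ B
      have hEW : (Es (j + g)).card ≤ W := by
        by_contra h
        push Not at h
        have : (Ω + 1) * (W + 1) ≤ (Ω + 1) * (Es (j + g)).card := Nat.mul_le_mul_left _ h
        omega
      have hs1 : Yg.card * l ≤ ∑ y ∈ Yg, (D.filter (fun c => LightCell A q y c)).card := by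
        rw [← smul_eq_mul]
        apply card_nsmul_le_sum
        intro y hy
        have h3 := hgood y (mem_sdiff.1 hy).2
        have h4 : D0.filter (fun c => LightCell A q y c) ⊆
            D.filter (fun c => LightCell A q y c) ∪ ((cols T ∩ D0) ∪ Es (j + g)) := by
          intro c hc
          rw [mem_filter] at hc
          simp only [mem_union, mem_filter, hD, mem_sdiff, mem_inter, hF, mem_univ, true_and]
          by_cases h5 : c ∈ cols T
          · exact Or.inr (Or.inl ⟨h5, hc.1⟩)
          · by_cases h6 : c ∈ Es (j + g)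
            · exact Or.inr (Or.inr h6)
            · exact Or.inl ⟨⟨⟨hc.1, h5⟩, h6⟩, hc.2⟩
        have h5 := (card_le_card h4).trans (card_union_le _ _)
        have h6 := card_union_le (cols T ∩ D0) (Es (j + g))
        omega
      have hDd : D.card ≤ d := by
        rw [← hd]
        exact card_le_card (fun c hc => (mem_inter.1 (mem_sdiff.1 hc).1).1)
      have hs2 : ∑ c ∈ D, (hh A T B c + hh A T J c) ≤ d * (2 * Ω) := by
        have h3 : ∑ c ∈ D, (hh A T B c + hh A T J c) ≤ D.card * (2 * Ω) := by
          rw [← smul_eq_mul]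
          apply sum_le_card_nsmul
          intro c hc
          have h4 := hslowi c hc
          have h5 := hslowj c (by
            rw [hD, mem_sdiff] at hc
            exact mem_sdiff.2 ⟨hc.1, fun h' => hc.2 (hsubE h')⟩)
          omega
        exact h3.trans (Nat.mul_le_mul_right _ hDd)
      have hs3 : ∑ y ∈ Yg, (D.filter (fun c => LightCell A q y c ∧ A y c ∈ S A T (B \ J))).card ≤
          Yg.card * (q * a) := by
        rw [← smul_eq_mul]
        apply sum_le_card_nsmul
        intro y _
        refine le_trans (count_small D (fun c => LightCell A q y c) y (S A T (B \ J)) q ?_) ?_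
        · intro s _
          rcases (D.filter (fun c => LightCell A q y c ∧ A y c = s)).eq_empty_or_nonempty
            with h3 | ⟨c, hc⟩
          · rw [h3]; simp
          · rw [mem_filter] at hc
            refine le_trans (card_le_card ?_) hc.2.1
            intro c' hc'
            rw [mem_filter] at hc'
            exact mem_filter.2 ⟨mem_univ _, by rw [hc'.2.2, hc.2.2]⟩
        · exact Nat.mul_le_mul_left _ ((S_card_le hT _).trans hsmall)
      have h3 : Yg.card * l ≤ d * (2 * Ω) + Yg.card * (q * a) := by omega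
      have hql : q * a < l := by
        have : (G + 1) * (q * a) < (G + 1) * l := by omega
        exact Nat.lt_of_mul_lt_mul_left this
      have h4 : Yg.card ≤ G := by
        by_contra hcon
        push Not at hcon
        obtain ⟨e, he⟩ := Nat.exists_eq_add_of_le hcon
        rw [he] at h3
        have h5 : e * (q * a) ≤ e * l := Nat.mul_le_mul_left _ hql.le
        have h6 : (G + 1 + e) * l = (G + 1) * l + e * l := by ring
        have h7 : (G + 1 + e) * (q * a) = (G + 1) * (q * a) + e * (q * a) := by ring
        have h8 : G.succ = G + 1 := rfl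
        rw [h8] at h3
        omega
      have h5 : ((B \ J) ∩ Hb).card + Yg.card = (B \ J).card :=
        card_inter_add_card_sdiff (B \ J) Hb
      have h6 : J.card + k * g ≤ B.card := hgrow g j hj
      have h7 : X ≤ ((B \ J) ∩ Hb).card := by
        have : k * g ≤ B.card - J.card := by omega
        omega
      have h8 : a * X + a * (J ∩ Hb).card ≤ a * (B ∩ Hb).card := by
        rw [← mul_add]
        apply Nat.mul_le_mul_left
        omega
      have h9 : J.card * X ≤ B.card * X := Nat.mul_le_mul_right _ hBJ
      omega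
  have hind : ∀ s, s * g ≤ v → s * (a * X) ≤ a * (Bs (s * g) ∩ Hb).card + (Bs (s * g)).card * X := by
    intro s
    induction s with
    | zero => intro _; simp
    | succ s ih =>
      intro hs
      have h3 : (s + 1) * g = s * g + g := by ring
      rw [h3] at hs ⊢
      have h4 := ih (by omega)
      have h5 := hstep (s * g) hs
      have h6 : (s + 1) * (a * X) = s * (a * X) + a * X := by ring
      omega
  refine (hind τ hτ).trans ?_
  have h3 : (Bs (τ * g) ∩ Hb).card ≤ Hb.card := card_le_card inter_subset_right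
  have h4 : (Bs (τ * g)).card ≤ m := by simpa using card_le_univ (Bs (τ * g))
  exact Nat.add_le_add (Nat.mul_le_mul_left _ h3) (Nat.mul_le_mul_right _ h4)

end ColGrow
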